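import Mathlib

/-!
Definitions for structural numbers of topological spaces (problem MP_e04a0d_gt).
-/

namespace Pool.Agent.Lib.MP_e04a0d_gt

open Set

universe u

/-- `dim X ≤ n` for the covering (Cech-Lebesgue) dimension: every finite open cover has a finite
open refinement such that each point lies in at most `n + 1` of its members. -/
def CovDimLE (X : Type u) [TopologicalSpace X] (n : ℕ) : Prop :=
  ∀ 𝒰 : Set (Set X), 𝒰.Finite → (∀ U ∈ 𝒰, IsOpen U) → ⋃₀ 𝒰 = univ →
    ∃ 𝒱 : Set (Set X), 𝒱.Finite ∧ (∀ V ∈ 𝒱, IsOpen V) ∧ ⋃₀ 𝒱 = univ ∧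
      (∀ V ∈ 𝒱, ∃ U ∈ 𝒰, V ⊆ U) ∧ ∀ x : X, {V | V ∈ 𝒱 ∧ x ∈ V}.encard ≤ n + 1

/-- `dim X = 0`: the space is nonempty (the empty space has dimension `-1`) and `dim X ≤ 0`. -/
def CovDimEqZero (X : Type u) [TopologicalSpace X] : Prop :=
  Nonempty X ∧ CovDimLE X 0

/-- `dim X = ∞`. -/
def CovDimInfinite (X : Type u) [TopologicalSpace X] : Prop :=
  ∀ n : ℕ, ¬ CovDimLE X n

/-- `X` is a countable union of subspaces of covering dimension at most `0`. -/
def CountableDimensional (X : Type u) [TopologicalSpace X] : Prop :=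
  ∃ S : ℕ → Set X, ⋃ k, S k = univ ∧ ∀ k, CovDimLE (S k) 0

/-- The class `M_dim` of metrizable spaces of covering dimension `0`. -/
def MDim (Z : Type u) (t : TopologicalSpace Z) : Prop :=
  @TopologicalSpace.MetrizableSpace Z t ∧ @CovDimEqZero Z t

/-- The cardinals `κ` such that `τ` is the intersection of a family, indexed by a set of
cardinality `κ`, of extensions of `τ` that belong to the class `A`. -/
def admissible (A : ∀ Z : Type u, TopologicalSpace Z → Prop) (X : Type u)
    (τ : TopologicalSpace X) : Set Cardinal.{u} :=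
  {κ | ∃ (I : Type u) (T : I → TopologicalSpace X), Cardinal.mk I = κ ∧
    (∀ i, (∀ U : Set X, @IsOpen X τ U → @IsOpen X (T i) U) ∧ A X (T i)) ∧
    ∀ U : Set X, @IsOpen X τ U ↔ ∀ i, @IsOpen X (T i) U}

open Classical in
/-- The structural number: the least admissible cardinal, or `⊤` if there is none. -/
noncomputable def structuralNumber (A : ∀ Z : Type u, TopologicalSpace Z → Prop) (X : Type u)
    (τ : TopologicalSpace X) : WithTop Cardinal.{u} :=
  if (admissible A X τ).Nonempty then ((sInf (admissible A X τ) : Cardinal.{u}) : WithTop Cardinal)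
  else ⊤

end Pool.Agent.Lib.MP_e04a0d_gt
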