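import Mathlib
import Pool.Agent.Lib.MP_e04a0d_gt.Defs

/-!
A metrizable topology that is the intersection of finitely many extensions of covering dimension
at most zero has finite covering dimension.
-/

namespace Pool.Agent.Lib.MP_e04a0d_gt

open Set Filter Topology Metric

universe u

/-- An open refinement of small order can be amalgamated to a finite one. -/
theorem amalgamate {X : Type u} [TopologicalSpace X] {n : ℕ∞} {𝒰 𝒱 : Set (Set X)}
    (h𝒰 : 𝒰.Finite) (ho : ∀ V ∈ 𝒱, IsOpen V) (hc : ⋃₀ 𝒱 = univ)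
    (hr : ∀ V ∈ 𝒱, V.Nonempty → ∃ U ∈ 𝒰, V ⊆ U)
    (hord : ∀ x : X, {V | V ∈ 𝒱 ∧ x ∈ V}.encard ≤ n) :
    ∃ 𝒲 : Set (Set X), 𝒲.Finite ∧ (∀ V ∈ 𝒲, IsOpen V) ∧ ⋃₀ 𝒲 = univ ∧
      (∀ V ∈ 𝒲, ∃ U ∈ 𝒰, V ⊆ U) ∧ ∀ x : X, {V | V ∈ 𝒲 ∧ x ∈ V}.encard ≤ n := by
  choose! j hj using hr
  let W : Set X → Set X := fun U => ⋃₀ {V | V ∈ 𝒱 ∧ V.Nonempty ∧ j V = U}
  refine ⟨W '' 𝒰, h𝒰.image W, ?_, ?_, ?_, fun x => ?_⟩
  · rintro _ ⟨U, -, rfl⟩
    exact isOpen_sUnion fun V hV => ho V hV.1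
  · refine eq_univ_of_forall fun x => ?_
    have hx : x ∈ ⋃₀ 𝒱 := by rw [hc]; trivial
    obtain ⟨V, hV, hxV⟩ := hx
    exact ⟨W (j V), ⟨j V, (hj V hV ⟨x, hxV⟩).1, rfl⟩, V, ⟨hV, ⟨x, hxV⟩, rfl⟩, hxV⟩
  · rintro _ ⟨U, hU, rfl⟩
    refine ⟨U, hU, ?_⟩
    rintro x ⟨V, ⟨hV, hne, rfl⟩, hxV⟩
    exact (hj V hV hne).2 hxV
  · refine le_trans (encard_le_encard ?_)
      ((encard_image_le (fun V => W (j V)) {V | V ∈ 𝒱 ∧ x ∈ V}).trans (hord x))
    rintro _ ⟨⟨U, -, rfl⟩, V, ⟨hV, -, rfl⟩, hxV⟩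
    exact ⟨V, ⟨hV, hxV⟩, rfl⟩

/-- The bound for skew systems. -/
def skewBound : ℕ → ℕ
  | 0 => 1
  | n + 1 => (n + 1) * skewBound n + 1

theorem skew_card_le {J β : Type*} (n : ℕ) : ∀ (s : Finset J), s.card = n →
    ∀ (A : Finset ℝ) (a b : ℝ → J → β), (∀ k ∈ A, ∀ j ∈ s, a k j ≠ b k j) →
      (∀ k ∈ A, ∀ l ∈ A, l < k → ∃ j ∈ s, a k j = b l j) → A.card ≤ skewBound n := by
  classical
  induction n with
  | zero =>
    intro s hs A a b _ h2
    rw [Finset.card_eq_zero] at hs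
    subst hs
    refine Finset.card_le_one.2 fun k hk l hl => ?_
    rcases lt_trichotomy k l with h | h | h
    · obtain ⟨j, hj, -⟩ := h2 l hl k hk h
      simp at hj
    · exact h
    · obtain ⟨j, hj, -⟩ := h2 k hk l hl h
      simp at hj
  | succ n ih =>
    intro s hs A a b h1 h2
    rcases A.eq_empty_or_nonempty with rfl | hA
    · simp
    set L := A.min' hA with hL
    have hLA : L ∈ A := A.min'_mem hA
    have hsub : A.erase L ⊆ s.biUnion fun j => (A.erase L).filter fun k => a k j = b L j := by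
      intro k hk
      have hk' := Finset.mem_erase.1 hk
      obtain ⟨j, hj, hjk⟩ := h2 k hk'.2 L hLA (lt_of_le_of_ne (A.min'_le k hk'.2) hk'.1.symm)
      exact Finset.mem_biUnion.2 ⟨j, hj, Finset.mem_filter.2 ⟨hk, hjk⟩⟩
    have hone : ∀ j ∈ s, ((A.erase L).filter fun k => a k j = b L j).card ≤ skewBound n := by
      intro j hj
      refine ih (s.erase j) (by rw [Finset.card_erase_of_mem hj, hs]; rfl) _ a b ?_ ?_
      · intro k hk i hi
        exact h1 k (Finset.mem_of_mem_erase (Finset.mem_filter.1 hk).1) i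
          (Finset.mem_of_mem_erase hi)
      · intro k hk l hl hlk
        have hk' := Finset.mem_filter.1 hk
        have hl' := Finset.mem_filter.1 hl
        obtain ⟨i, hi, hik⟩ := h2 k (Finset.mem_of_mem_erase hk'.1) l
          (Finset.mem_of_mem_erase hl'.1) hlk
        refine ⟨i, Finset.mem_erase.2 ⟨?_, hi⟩, hik⟩
        rintro rfl
        exact h1 l (Finset.mem_of_mem_erase hl'.1) i hi (by rw [hl'.2, ← hk'.2, hik])
    have h3 : (A.erase L).card ≤ (n + 1) * skewBound n := by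
      refine (Finset.card_le_card hsub).trans (Finset.card_biUnion_le.trans ?_)
      rw [← hs]
      simpa using Finset.sum_le_card_nsmul s _ _ hone
    rw [Finset.card_erase_of_mem hLA] at h3
    change A.card ≤ (n + 1) * skewBound n + 1
    omega

section Perp

variable {X J β : Type*} (t : X → J → β)

/-- Two points are adjacent if their types agree in some coordinate. -/
def Adj (x y : X) : Prop := ∃ j, t x j = t y j

theorem Adj.symm {t : X → J → β} {x y : X} (h : Adj t x y) : Adj t y x :=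
  let ⟨j, hj⟩ := h; ⟨j, hj.symm⟩

/-- The points adjacent to all points of `S`. -/
def perp (S : Set X) : Set X := {y | ∀ x ∈ S, Adj t x y}

theorem perp_anti {S S' : Set X} (h : S ⊆ S') : perp t S' ⊆ perp t S :=
  fun _ hy x hx => hy x (h hx)

theorem subset_perp_perp (S : Set X) : S ⊆ perp t (perp t S) :=
  fun x hx _ hy => (hy x hx).symm

theorem clique_perp_perp {S : Set X} (hS : ∀ x ∈ S, ∀ y ∈ S, Adj t x y) {a b : X}
    (ha : a ∈ perp t (perp t S)) (hb : b ∈ perp t (perp t S)) : Adj t a b := by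
  have h1 : S ⊆ perp t S := fun y hy x hx => hS x hx y hy
  exact hb a (perp_anti t h1 ha)

/-- An antitone family of closed sets takes boundedly many values. -/
theorem chain_card_le [Fintype J] (S : ℝ → Set X) (hS : Antitone S) (A : Finset ℝ)
    (hA : Set.InjOn (fun s => perp t (perp t (S s))) A) :
    A.card ≤ skewBound (Fintype.card J) + 1 := by
  classical
  rcases A.eq_empty_or_nonempty with rfl | hne
  · simp
  set L := A.min' hne with hL
  have hLA : L ∈ A := A.min'_mem hne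
  have hK : Antitone fun s => perp t (perp t (S s)) :=
    fun s s' h => perp_anti t (perp_anti t (hS h))
  have key : ∀ k ∈ A.erase L, ∃ a b : X, (∀ l ∈ A, l < k → a ∈ perp t (perp t (S l))) ∧
      b ∈ perp t (S k) ∧ ¬ Adj t b a := by
    intro k hk
    have hk' := Finset.mem_erase.1 hk
    have hLk : L < k := lt_of_le_of_ne (A.min'_le k hk'.2) hk'.1.symm
    have hne' : (A.filter fun l => l < k).Nonempty := ⟨L, Finset.mem_filter.2 ⟨hLA, hLk⟩⟩
    set m := (A.filter fun l => l < k).max' hne' with hm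
    have hmA := Finset.mem_filter.1 ((A.filter fun l => l < k).max'_mem hne')
    have hnsub : ¬ perp t (perp t (S m)) ⊆ perp t (perp t (S k)) := fun H =>
      hmA.2.ne (hA hmA.1 hk'.2 (Subset.antisymm H (hK hmA.2.le)))
    obtain ⟨a, ham, hak⟩ := not_subset.1 hnsub
    simp only [perp, mem_ofPred_eq, not_forall] at hak
    obtain ⟨b, hb, hab⟩ := hak
    refine ⟨a, b, fun l hl hlk => hK ?_ ham, hb, hab⟩
    exact Finset.le_max' _ l (Finset.mem_filter.2 ⟨hl, hlk⟩)
  by_cases hX : Nonempty X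
  swap
  · have : (A.erase L) = ∅ := Finset.eq_empty_of_forall_notMem fun k hk =>
      let ⟨a, _⟩ := key k hk; hX ⟨a⟩
    have h2 := Finset.card_erase_of_mem hLA
    rw [this, Finset.card_empty] at h2
    omega
  choose! a b h1 h2 h3 using key
  have h4 := skew_card_le (Fintype.card J) Finset.univ Finset.card_univ (A.erase L)
    (fun k => t (a k)) (fun k => t (b k)) (fun k hk j _ H => h3 k hk ⟨j, H.symm⟩)
    (fun k hk l hl hlk => by
      obtain ⟨j, hj⟩ := h1 k hk l (Finset.mem_of_mem_erase hl) hlk (b l) (h2 l hl)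
      exact ⟨j, Finset.mem_univ j, hj.symm⟩)
  rw [Finset.card_erase_of_mem hLA] at h4
  omega

end Perp

/-- The main covering lemma. -/
theorem exists_cover {X : Type u} [MetricSpace X] {J β : Type*} [Fintype J] [Nonempty J]
    (t : X → J → β) (hN : ∀ x, {y | Adj t x y} ∈ 𝓝 x) :
    ∃ 𝒱 : Set (Set X), (∀ V ∈ 𝒱, IsOpen V) ∧ ⋃₀ 𝒱 = univ ∧
      (∀ V ∈ 𝒱, ∀ z ∈ V, ∀ z' ∈ V, ∃ a b, Adj t z a ∧ Adj t a b ∧ Adj t b z') ∧
      ∀ x : X, {V | V ∈ 𝒱 ∧ x ∈ V}.encard ≤ (skewBound (Fintype.card J) : ℕ) + 1 := by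
  classical
  choose r hr hball using fun x => Metric.mem_nhds_iff.1 (hN x)
  let S : X → ℝ → Set X := fun z s => {x | dist x z + s < r x / 2}
  let K : X → ℝ → Set X := fun z s => perp t (perp t (S z s))
  have hSanti : ∀ z, Antitone (S z) := fun z s s' h x hx => by
    simp only [S, mem_ofPred_eq] at hx ⊢; linarith
  have hSS : ∀ z z' s s', dist z z' + s' ≤ s → S z s ⊆ S z' s' := fun z z' s s' h x hx => by
    simp only [S, mem_ofPred_eq] at hx ⊢
    linarith [dist_triangle x z z']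
  have hKK : ∀ z z' s s', dist z z' + s' ≤ s → K z s ⊆ K z' s' := fun z z' s s' h =>
    perp_anti t (perp_anti t (hSS z z' s s' h))
  have hclique : ∀ z s, 0 ≤ s → ∀ x ∈ S z s, ∀ y ∈ S z s, Adj t x y := by
    intro z s hs x hx y hy
    simp only [S, mem_ofPred_eq] at hx hy
    have hd : dist y x ≤ dist y z + dist x z := dist_triangle_right y x z
    rcases le_total (r x) (r y) with h | h
    · exact Adj.symm (hball y (show x ∈ ball y (r y) by
        rw [mem_ball, dist_comm]; linarith))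
    · exact hball x (show y ∈ ball x (r x) by rw [mem_ball]; linarith)
  let H : Set X → Set X := fun 𝒦 =>
    {z | ∃ s δ : ℝ, 0 ≤ s ∧ 0 < δ ∧ (S z (s + δ)).Nonempty ∧ K z (s + δ) = 𝒦 ∧ K z s = 𝒦}
  refine ⟨range H, ?_, ?_, ?_, fun z => ?_⟩
  · rintro _ ⟨𝒦, rfl⟩
    refine Metric.isOpen_iff.2 ?_
    rintro z ⟨s, δ, hs, hδ, hne, h1, h2⟩
    refine ⟨δ / 3, by positivity, fun z' hz' => ?_⟩
    rw [mem_ball] at hz'
    have hz'' : dist z z' < δ / 3 := by rwa [dist_comm]
    have e1 : K z (s + δ) ⊆ K z' (s + δ / 3 + δ / 3) := hKK _ _ _ _ (by linarith)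
    have e2 : K z' (s + δ / 3 + δ / 3) ⊆ K z' (s + δ / 3) :=
      hKK _ _ _ _ (by rw [dist_self]; linarith)
    have e3 : K z' (s + δ / 3) ⊆ K z s := hKK _ _ _ _ (by linarith)
    refine ⟨s + δ / 3, δ / 3, by positivity, by positivity,
      hne.mono (hSS _ _ _ _ (by linarith)), ?_, ?_⟩
    · exact Subset.antisymm (h2 ▸ e2.trans e3) (h1 ▸ e1)
    · exact Subset.antisymm (h2 ▸ e3) (h1 ▸ e1.trans e2)
  · refine eq_univ_of_forall fun z => ?_
    set D := skewBound (Fintype.card J) + 2 with hD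
    have hDpos : (0 : ℝ) < D := by positivity
    set c : ℝ := r z / (2 * D) with hc
    have hcpos : 0 < c := div_pos (hr z) (by positivity)
    let A : Finset ℝ := (Finset.range D).image fun k : ℕ => (k : ℝ) * c
    have hAcard : A.card = D := by
      rw [Finset.card_image_of_injective _ (fun k l h => by
        have := mul_right_cancel₀ hcpos.ne' h
        exact_mod_cast this), Finset.card_range]
    have hA : ∀ s ∈ A, 0 ≤ s ∧ s < r z / 2 := by
      intro s hs
      obtain ⟨k, hk, rfl⟩ := Finset.mem_image.1 hs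
      have hk' : (k : ℝ) < D := by exact_mod_cast Finset.mem_range.1 hk
      refine ⟨by positivity, ?_⟩
      calc (k : ℝ) * c < D * c := mul_lt_mul_of_pos_right hk' hcpos
        _ = r z / 2 := by rw [hc]; field_simp
    have hnot : ¬ Set.InjOn (K z) A := fun hinj => by
      have := chain_card_le t (S z) (hSanti z) A hinj
      omega
    have : ∃ s ∈ A, ∃ s' ∈ A, s < s' ∧ K z s' = K z s := by
      by_contra hcon
      refine hnot fun s hs s' hs' h => ?_
      rcases lt_trichotomy s s' with h' | h' | h'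
      · exact (hcon ⟨s, hs, s', hs', h', h.symm⟩).elim
      · exact h'
      · exact (hcon ⟨s', hs', s, hs, h', h⟩).elim
    obtain ⟨s, hs, s', hs', hlt, heq⟩ := this
    refine ⟨H (K z s), ⟨_, rfl⟩, s, s' - s, (hA s hs).1, sub_pos.2 hlt, ⟨z, ?_⟩, ?_, rfl⟩
    · simp only [S, mem_ofPred_eq, dist_self]
      linarith [(hA s' hs').2]
    · rw [add_sub_cancel, heq]
  · rintro _ ⟨𝒦, rfl⟩ z ⟨s, δ, hs, hδ, ⟨a, ha⟩, h1, h2⟩ z' ⟨s', δ', hs', hδ', ⟨b, hb⟩, h1', -⟩
    have haK : a ∈ K z s := by rw [h2, ← h1]; exact subset_perp_perp t _ ha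
    have hbK : b ∈ K z s := by rw [h2, ← h1']; exact subset_perp_perp t _ hb
    simp only [S, mem_ofPred_eq] at ha hb
    refine ⟨a, b, Adj.symm (hball a ?_), clique_perp_perp t (hclique z s hs) haK hbK, hball b ?_⟩
    · rw [mem_ball, dist_comm]; linarith [hr a]
    · rw [mem_ball, dist_comm]; linarith [hr b]
  · have hsub : {V | V ∈ range H ∧ z ∈ V} ⊆ H '' range (K z) := by
      rintro _ ⟨⟨𝒦, rfl⟩, s, δ, -, -, -, -, h2⟩
      exact ⟨𝒦, ⟨s, h2⟩, rfl⟩
    refine (encard_le_encard hsub).trans ((encard_image_le _ _).trans ?_)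
    by_contra hcon
    push Not at hcon
    obtain ⟨T, hT, hTc⟩ := Set.exists_subset_encard_eq (Order.add_one_le_of_lt hcon)
    have hTfin : T.Finite := finite_of_encard_eq_coe
      (k := skewBound (Fintype.card J) + 1 + 1) (by rw [hTc]; push_cast; rfl)
    choose! g hg using fun V (hV : V ∈ T) => hT hV
    have hginj : InjOn g T := fun V hV W hW h => by rw [← hg V hV, ← hg W hW, h]
    have h5 := chain_card_le t (S z) (hSanti z) (hTfin.toFinset.image g) (by
      intro s hs s' hs' h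
      simp only [Finset.coe_image, Finite.coe_toFinset, mem_image] at hs hs'
      obtain ⟨V, hV, rfl⟩ := hs
      obtain ⟨W, hW, rfl⟩ := hs'
      have : V = W := by rw [← hg V hV, ← hg W hW]; exact h
      rw [this])
    rw [Finset.card_image_of_injOn (by simpa using hginj)] at h5
    rw [hTfin.encard_eq_coe_toFinset_card] at hTc
    have : hTfin.toFinset.card = skewBound (Fintype.card J) + 1 + 1 := by exact_mod_cast hTc
    omega

/-- A finite open cover has a finite open cover that is a strong star refinement. -/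
theorem exists_star_refinement {X : Type u} [MetricSpace X] {𝒰 : Set (Set X)}
    (h𝒰 : 𝒰.Finite) (ho : ∀ U ∈ 𝒰, IsOpen U) (hc : ⋃₀ 𝒰 = univ) :
    ∃ 𝒲 : Set (Set X), 𝒲.Finite ∧ (∀ W ∈ 𝒲, IsOpen W) ∧ ⋃₀ 𝒲 = univ ∧
      ∀ z, ∃ U ∈ 𝒰, ∀ a b z', (∃ W ∈ 𝒲, z ∈ W ∧ a ∈ W) → (∃ W ∈ 𝒲, a ∈ W ∧ b ∈ W) →
        (∃ W ∈ 𝒲, b ∈ W ∧ z' ∈ W) → z' ∈ U := by
  have : Fintype 𝒰 := h𝒰.fintype
  obtain ⟨f, hf⟩ := PartitionOfUnity.exists_isSubordinate (isClosed_univ (X := X))
    (fun U : 𝒰 => (U : Set X)) (fun U => ho U U.2) (by rw [← sUnion_eq_iUnion, hc])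
  let F : X → 𝒰 → ℝ := fun x U => f U x
  have hF : Continuous F := continuous_pi fun U => (f U).continuous
  set m : ℝ := Fintype.card 𝒰 + 1 with hm
  have hmpos : 0 < m := by positivity
  obtain ⟨T, -, hT, hcov⟩ := finite_cover_balls_of_compact
    (isCompact_Icc (a := (0 : 𝒰 → ℝ)) (b := 1)) (e := 1 / (6 * m)) (by positivity)
  have hclose : ∀ x y, (∃ W ∈ (fun c => F ⁻¹' ball c (1 / (6 * m))) '' T, x ∈ W ∧ y ∈ W) →
      dist (F x) (F y) < 2 * (1 / (6 * m)) := by
    rintro x y ⟨_, ⟨c, -, rfl⟩, hx, hy⟩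
    simp only [mem_preimage, mem_ball] at hx hy
    linarith [dist_triangle_right (F x) (F y) c]
  refine ⟨(fun c => F ⁻¹' ball c (1 / (6 * m))) '' T, hT.image _, ?_, ?_, fun z => ?_⟩
  · rintro _ ⟨c, -, rfl⟩
    exact isOpen_ball.preimage hF
  · refine eq_univ_of_forall fun x => ?_
    have hx : F x ∈ Icc (0 : 𝒰 → ℝ) 1 := ⟨fun U => f.nonneg U x, fun U => f.le_one U x⟩
    obtain ⟨c, hc, hxc⟩ := mem_iUnion₂.1 (hcov hx)
    exact ⟨_, ⟨c, hc, rfl⟩, hxc⟩
  · have hsum : ∑ U, f U z = 1 := by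
      rw [← finsum_eq_sum_of_fintype]; exact f.sum_eq_one (mem_univ z)
    have : ∃ U : 𝒰, 1 / m ≤ f U z := by
      by_contra hcon
      push Not at hcon
      have h1 : ∑ U, f U z ≤ Fintype.card 𝒰 * (1 / m) := by
        simpa using Finset.sum_le_card_nsmul Finset.univ (fun U => f U z) (1 / m)
          (fun U _ => (hcon U).le)
      rw [hsum, mul_one_div, le_div_iff₀ hmpos, hm] at h1
      linarith
    obtain ⟨U, hU⟩ := this
    refine ⟨U, U.2, fun a b z' h1 h2 h3 => ?_⟩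
    have e1 := hclose _ _ h1
    have e2 := hclose _ _ h2
    have e3 := hclose _ _ h3
    have e4 : dist (F z) (F z') < 1 / m := by
      have := dist_triangle4 (F z) (F a) (F b) (F z')
      have e5 : 1 / m = 6 * (1 / (6 * m)) := by field_simp
      linarith
    have e6 : dist (f U z) (f U z') < 1 / m := (dist_le_pi_dist (F z) (F z') U).trans_lt e4
    rw [Real.dist_eq, abs_lt] at e6
    have e7 : f U z' ≠ 0 := by intro h0; rw [h0] at e6; linarith [e6.2]
    exact hf U (subset_tsupport _ e7)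

/-- If `τ` is the intersection of the `T i`, the union of `T i`-neighbourhoods of a point
(together with the point) is a `τ`-neighbourhood. -/
theorem union_mem_nhds {X : Type u} [τ : TopologicalSpace X] [T2Space X] [FirstCountableTopology X]
    {I : Type*} (T : I → TopologicalSpace X)
    (hT : ∀ U : Set X, IsOpen U ↔ ∀ i, @IsOpen X (T i) U) (x : X) (V : I → Set X)
    (hV : ∀ i, @IsOpen X (T i) (V i)) (hx : ∀ i, x ∈ V i) : insert x (⋃ i, V i) ∈ 𝓝 x := by
  by_contra hcon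
  rw [← mem_interior_iff_mem_nhds, ← mem_compl_iff, ← closure_compl] at hcon
  obtain ⟨y, hy, hlim⟩ := mem_closure_iff_seq_limit.1 hcon
  simp only [mem_compl_iff, mem_insert_iff, mem_iUnion, not_or, not_exists] at hy
  have hK : IsOpen (insert x (range y))ᶜ := hlim.isCompact_insert_range.isClosed.isOpen_compl
  have hO : IsOpen (range y)ᶜ := by
    refine (hT _).2 fun i => ?_
    have : (range y)ᶜ = (insert x (range y))ᶜ ∪ V i := by
      ext z
      simp only [mem_compl_iff, mem_union, mem_insert_iff, not_or]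
      constructor
      · intro hz
        by_cases hzx : z = x
        · right; rw [hzx]; exact hx i
        · left; exact ⟨hzx, hz⟩
      · rintro (hz | hz)
        · exact hz.2
        · rintro ⟨k, rfl⟩
          exact (hy k).2 i hz
    rw [this]
    exact @IsOpen.union X _ _ (T i) ((hT _).1 hK i) (hV i)
  have hxO : x ∈ (range y)ᶜ := by
    rintro ⟨k, hk⟩
    exact (hy k).1 hk
  obtain ⟨k, hk⟩ := (hlim.eventually (hO.mem_nhds hxO)).exists
  exact hk ⟨k, rfl⟩

/-- The lower bound. -/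
theorem covDimLE_of_finite {X : Type u} [τ : TopologicalSpace X]
    [TopologicalSpace.MetrizableSpace X] {I : Type*} [Fintype I] (T : I → TopologicalSpace X)
    (h0 : ∀ i, @CovDimLE X (T i) 0)
    (hT : ∀ U : Set X, IsOpen U ↔ ∀ i, @IsOpen X (T i) U) :
    CovDimLE X (skewBound (Fintype.card (Option I))) := by
  let : MetricSpace X := TopologicalSpace.metrizableSpaceMetric X
  intro 𝒰 h𝒰 ho hc
  obtain ⟨𝒲, hWf, hWo, hWc, hW⟩ := exists_star_refinement h𝒰 ho hc
  choose 𝒱 hVf hVo hVc hVr hVord using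
    fun i => h0 i 𝒲 hWf (fun W hW => (hT W).1 (hWo W hW) i) hWc
  have hex : ∀ i x, ∃ V ∈ 𝒱 i, x ∈ V := fun i x => by
    have : x ∈ ⋃₀ 𝒱 i := by rw [hVc]; trivial
    exact this
  choose P hP hxP using hex
  have hPP : ∀ i x y, y ∈ P i x → P i x = P i y := fun i x y hy => by
    have := hVord i y
    simp only [CharP.cast_eq_zero, zero_add] at this
    exact encard_le_one_iff.1 this _ _ ⟨hP i x, hy⟩ ⟨hP i y, hxP i y⟩
  let t : X → Option I → Set X := fun x j => j.elim {x} (fun i => P i x)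
  have hN : ∀ x, {y | Adj t x y} ∈ 𝓝 x := fun x => by
    refine mem_of_superset (union_mem_nhds T hT x (fun i => P i x)
      (fun i => hVo i _ (hP i x)) (fun i => hxP i x)) ?_
    rintro y (rfl | hy)
    · exact ⟨none, rfl⟩
    · obtain ⟨i, hi⟩ := mem_iUnion.1 hy
      exact ⟨some i, hPP i x y hi⟩
  have hR : ∀ x y, Adj t x y → ∃ W ∈ 𝒲, x ∈ W ∧ y ∈ W := by
    rintro x y ⟨_ | i, hj⟩
    · have hxy : x = y := singleton_injective hj
      have : x ∈ ⋃₀ 𝒲 := by rw [hWc]; trivial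
      obtain ⟨W, hW, hxW⟩ := this
      exact ⟨W, hW, hxW, hxy ▸ hxW⟩
    · obtain ⟨W, hW, hPW⟩ := hVr i _ (hP i x)
      have hj' : P i x = P i y := hj
      exact ⟨W, hW, hPW (hxP i x), hPW (hj' ▸ hxP i y)⟩
  obtain ⟨𝒱', h1, h2, h3, h4⟩ := exists_cover t hN
  refine amalgamate h𝒰 h1 h2 ?_ h4
  rintro V hV ⟨z, hz⟩
  obtain ⟨U, hU, hzU⟩ := hW z
  refine ⟨U, hU, fun z' hz' => ?_⟩
  obtain ⟨a, b, e1, e2, e3⟩ := h3 V hV z hz z' hz'
  exact hzU a b z' (hR _ _ e1) (hR _ _ e2) (hR _ _ e3)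

end Pool.Agent.Lib.MP_e04a0d_gt
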