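import Mathlib
import Pool.Agent.Lib.MP_e04a0d_gt.Defs
import Pool.Agent.Lib.MP_e04a0d_gt.Lower

/-!
A countable-dimensional metrizable topology is the intersection of countably many metrizable
extensions of covering dimension zero.
-/

namespace Pool.Agent.Lib.MP_e04a0d_gt

open Set Filter Topology Metric

universe u

theorem exists_clopen_between {M : Type u} [TopologicalSpace M] (h : CovDimLE M 0)
    {w v : Set M} (hw : IsClosed w) (hv : IsOpen v) (hwv : w ⊆ v) :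
    ∃ C, IsClopen C ∧ w ⊆ C ∧ C ⊆ v := by
  obtain ⟨𝒱, -, ho, hc, hr, hord⟩ := h {v, wᶜ} (toFinite _)
    (by rintro U (rfl | rfl); exacts [hv, hw.isOpen_compl])
    (by
      rw [sUnion_pair]
      exact eq_univ_of_forall fun x => (em (x ∈ w)).elim (fun hx => Or.inl (hwv hx)) Or.inr)
  have hex : ∀ x, ∃ V ∈ 𝒱, x ∈ V := fun x => by
    have : x ∈ ⋃₀ 𝒱 := by rw [hc]; trivial
    exact this
  refine ⟨⋃₀ {V | V ∈ 𝒱 ∧ V ⊆ v}, ⟨?_, isOpen_sUnion fun V hV => ho V hV.1⟩, fun x hx => ?_,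
    sUnion_subset fun V hV => hV.2⟩
  · rw [← isOpen_compl_iff, isOpen_iff_mem_nhds]
    intro x hx
    obtain ⟨V, hV, hxV⟩ := hex x
    refine mem_of_superset ((ho V hV).mem_nhds hxV) ?_
    rintro y hy ⟨W, hW, hyW⟩
    have := hord y
    simp only [CharP.cast_eq_zero, zero_add] at this
    have hVW : V = W := encard_le_one_iff.1 this _ _ ⟨hV, hy⟩ ⟨hW.1, hyW⟩
    exact hx ⟨W, hW, hVW ▸ hxV⟩
  · obtain ⟨V, hV, hxV⟩ := hex x
    obtain ⟨U, hU | hU, hVU⟩ := hr V hV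
    · exact ⟨V, ⟨hV, hU ▸ hVU⟩, hxV⟩
    · rw [mem_singleton_iff] at hU
      exact ((hU ▸ hVU) hxV hx).elim

theorem exists_setoid_self {M : Type u} [MetricSpace M] (h : CovDimLE M 0) {ε : ℝ} (hε : 0 < ε) :
    ∃ E : Setoid M, (∀ x y, E x y → dist x y < 2 * ε) ∧ ∀ x, {y | E x y} ∈ 𝓝 x := by
  obtain ⟨v, hvo, hvc, hvf, hvb⟩ := precise_refinement (fun a : M => ball a ε)
    (fun _ => isOpen_ball) (eq_univ_of_forall fun x => mem_iUnion.2 ⟨x, mem_ball_self hε⟩)
  obtain ⟨w, hwc, hwcl, hwv⟩ := exists_iUnion_eq_closed_subset hvo hvf.point_finite hvc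
  choose C hC hwC hCv using fun a => exists_clopen_between h (hwcl a) (hvo a) (hwv a)
  have hCf : LocallyFinite C := hvf.subset hCv
  refine ⟨⟨fun x y => ∀ a, x ∈ C a ↔ y ∈ C a, fun _ _ => Iff.rfl, fun h a => (h a).symm,
    fun h h' a => (h a).trans (h' a)⟩, fun x y hxy => ?_, fun x => ?_⟩
  · have : x ∈ iUnion w := by rw [hwc]; trivial
    obtain ⟨a, ha⟩ := mem_iUnion.1 this
    have h1 := hvb a (hCv a (hwC a ha))
    have h2 := hvb a (hCv a ((hxy a).1 (hwC a ha)))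
    rw [mem_ball] at h1 h2
    linarith [dist_triangle_right x y a]
  · have h1 := hCf.iInter_compl_mem_nhds (fun a => (hC a).1) x
    have h2 : (⋂ a ∈ {a | x ∈ C a}, C a) ∈ 𝓝 x :=
      (biInter_mem (hCf.point_finite x)).2 fun a ha => (hC a).2.mem_nhds ha
    filter_upwards [h1, h2] with y hy1 hy2 a
    simp only [mem_iInter] at hy1 hy2
    exact ⟨fun hx => hy2 a hx, fun hy => by_contra fun hx => hy1 a hx hy⟩

theorem exists_setoid {X : Type u} [MetricSpace X] {M : Set X} (h : CovDimLE M 0) {ε : ℝ}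
    (hε : 0 < ε) :
    ∃ E : Setoid X, (∀ x y, E x y → dist x y < 4 * ε) ∧ ∀ x ∈ M, {y | E x y} ∈ 𝓝 x := by
  obtain ⟨E, hE, hEn⟩ := exists_setoid_self h hε
  have : ∀ x : M, ∃ r : ℝ, 0 < r ∧ r ≤ ε ∧ ∀ y : M, dist y x < 2 * r → E x y := fun x => by
    obtain ⟨δ, hδ, hb⟩ := Metric.mem_nhds_iff.1 (hEn x)
    refine ⟨min ε (δ / 2), by positivity, min_le_left _ _, fun y hy => hb ?_⟩
    rw [mem_ball]
    linarith [min_le_right ε (δ / 2)]
  choose r hr hrε hrE using this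
  have hkey : ∀ (z : X) (x y : M), dist z x < r x → dist z y < r y → E x y := by
    intro z x y hx hy
    have hd : dist y x ≤ dist z y + dist z x := dist_triangle_left (y : X) x z
    rcases le_total (r x) (r y) with h' | h'
    · exact E.symm (hrE y x (by rw [dist_comm]; linarith))
    · exact hrE x y (by linarith)
  refine ⟨⟨fun z z' => z = z' ∨ ∃ x x' : M, E x x' ∧ dist z x < r x ∧ dist z' x' < r x',
    fun _ => Or.inl rfl, ?_, ?_⟩, ?_, fun x hx => ?_⟩
  · rintro z z' (rfl | ⟨x, x', h1, h2, h3⟩)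
    · exact Or.inl rfl
    · exact Or.inr ⟨x', x, E.symm h1, h3, h2⟩
  · rintro z z' z'' (rfl | ⟨x, x', h1, h2, h3⟩) h'
    · exact h'
    · rcases h' with rfl | ⟨y, y', h4, h5, h6⟩
      · exact Or.inr ⟨x, x', h1, h2, h3⟩
      · exact Or.inr ⟨x, y', E.trans h1 (E.trans (hkey z' x' y h3 h5) h4), h2, h6⟩
  · rintro z z' (rfl | ⟨x, x', h1, h2, h3⟩)
    · rw [dist_self]; positivity
    · have h4 : dist (x : X) x' < 2 * ε := hE x x' h1
      have := dist_triangle4 z x x' z'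
      rw [dist_comm (x' : X) z'] at this
      linarith [hrε x, hrε x']
  · refine mem_of_superset (ball_mem_nhds x (hr ⟨x, hx⟩)) fun y hy => ?_
    exact Or.inr ⟨⟨x, hx⟩, ⟨x, hx⟩, E.refl _, by simpa using hr ⟨x, hx⟩, hy⟩

section Seq

variable {X : Type u} (E : ℕ → Setoid X)

/-- The topology generated by the classes of a sequence of equivalence relations. -/
@[reducible] def seqTop : TopologicalSpace X :=
  TopologicalSpace.induced (fun x n => (Quotient.mk (E n) x : Quotient (E n)))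
    (@Pi.topologicalSpace ℕ (fun n => Quotient (E n)) fun _ => ⊥)

/-- Basic neighbourhoods. -/
def cls (n : ℕ) (x : X) : Set X := {y | ∀ m < n, E m x y}

theorem mem_nhds_seqTop {x : X} {U : Set X} :
    U ∈ @nhds X (seqTop E) x ↔ ∃ n, cls E n x ⊆ U := by
  let : ∀ n, TopologicalSpace (Quotient (E n)) := fun _ => ⊥
  have : ∀ n, DiscreteTopology (Quotient (E n)) := fun _ => ⟨rfl⟩
  rw [nhds_induced, nhds_pi, mem_comap]
  constructor
  · rintro ⟨t, ht, htU⟩
    obtain ⟨I, hI, s, hs, hst⟩ := mem_pi.1 ht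
    obtain ⟨n, hn⟩ := hI.bddAbove
    refine ⟨n + 1, fun y hy => htU (hst fun m hm => ?_)⟩
    have h1 : Quotient.mk (E m) x = Quotient.mk (E m) y :=
      Quotient.sound (hy m (Nat.lt_succ_of_le (hn hm)))
    have h2 := mem_of_mem_nhds (hs m)
    simpa only [← h1] using h2
  · rintro ⟨n, hn⟩
    refine ⟨Set.pi (Iio n) fun m => {Quotient.mk (E m) x}, ?_, fun y hy => hn fun m hm => ?_⟩
    · exact pi_mem_pi (finite_Iio n) fun m _ => (isOpen_discrete _).mem_nhds rfl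
    · exact Quotient.exact (hy m hm).symm

theorem mem_cls (n : ℕ) (x : X) : x ∈ cls E n x := fun m _ => (E m).refl x

theorem cls_eq {n : ℕ} {x y : X} (h : y ∈ cls E n x) {k : ℕ} (hk : k ≤ n) :
    cls E k x = cls E k y := by
  ext z
  exact ⟨fun hz m hm => (E m).trans ((E m).symm (h m (hm.trans_le hk))) (hz m hm),
    fun hz m hm => (E m).trans (h m (hm.trans_le hk)) (hz m hm)⟩

theorem isOpen_seqTop {U : Set X} : IsOpen[seqTop E] U ↔ ∀ x ∈ U, ∃ n, cls E n x ⊆ U := by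
  simp only [@isOpen_iff_mem_nhds X (seqTop E), mem_nhds_seqTop]

theorem isOpen_cls (n : ℕ) (x : X) : IsOpen[seqTop E] (cls E n x) :=
  (isOpen_seqTop E).2 fun _ hy => ⟨n, (cls_eq E hy le_rfl).ge⟩

theorem metrizable_seqTop (hE : ∀ x y, (∀ n, E n x y) → x = y) :
    @TopologicalSpace.MetrizableSpace X (seqTop E) := by
  let : ∀ n, TopologicalSpace (Quotient (E n)) := fun _ => ⊥
  have : ∀ n, DiscreteTopology (Quotient (E n)) := fun _ => ⟨rfl⟩
  let := seqTop E
  have h : IsEmbedding (fun x n => (Quotient.mk (E n) x : Quotient (E n))) :=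
    ⟨⟨rfl⟩, fun x y hxy => hE x y fun n => Quotient.exact (congrFun hxy n)⟩
  exact h.metrizableSpace

theorem covDimLE_seqTop : @CovDimLE X (seqTop E) 0 := by
  classical
  let := seqTop E
  intro 𝒰 h𝒰 ho hc
  have hex : ∀ x, ∃ n, ∃ U ∈ 𝒰, cls E n x ⊆ U := fun x => by
    have : x ∈ ⋃₀ 𝒰 := by rw [hc]; trivial
    obtain ⟨U, hU, hx⟩ := this
    obtain ⟨n, hn⟩ := (isOpen_seqTop E).1 (ho U hU) x hx
    exact ⟨n, U, hU, hn⟩
  let H : X → Set X := fun x => cls E (Nat.find (hex x)) x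
  have hH : ∀ x y, y ∈ H x → H x = H y := by
    intro x y hy
    have h1 : Nat.find (hex y) ≤ Nat.find (hex x) :=
      Nat.find_min' _ (by rw [← cls_eq E hy le_rfl]; exact Nat.find_spec (hex x))
    have h2 : Nat.find (hex x) ≤ Nat.find (hex y) :=
      Nat.find_min' _ (by rw [cls_eq E hy h1]; exact Nat.find_spec (hex y))
    simp only [H]
    rw [le_antisymm h1 h2]
    exact cls_eq E hy le_rfl
  refine amalgamate (𝒱 := range H) h𝒰 ?_ ?_ ?_ fun z => ?_
  · rintro _ ⟨x, rfl⟩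
    exact isOpen_cls E _ _
  · exact eq_univ_of_forall fun x => ⟨H x, ⟨x, rfl⟩, mem_cls E _ x⟩
  · rintro _ ⟨x, rfl⟩ -
    exact Nat.find_spec (hex x)
  · simp only [CharP.cast_eq_zero, zero_add]
    refine encard_le_one_iff.2 ?_
    rintro _ _ ⟨⟨x, rfl⟩, hx⟩ ⟨⟨y, rfl⟩, hy⟩
    rw [hH x z hx, hH y z hy]

end Seq

theorem exists_extension {X : Type u} [τ : TopologicalSpace X]
    [TopologicalSpace.MetrizableSpace X] {M : Set X} (h : CovDimLE M 0) :
    ∃ T : TopologicalSpace X, (∀ U : Set X, IsOpen[τ] U → IsOpen[T] U) ∧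
      @TopologicalSpace.MetrizableSpace X T ∧ @CovDimLE X T 0 ∧
      ∀ U : Set X, IsOpen[T] U → ∀ x ∈ M, x ∈ U → U ∈ @nhds X τ x := by
  let : MetricSpace X := TopologicalSpace.metrizableSpaceMetric X
  choose E hE hEn using fun n : ℕ => exists_setoid h (ε := 1 / ((n : ℝ) + 1)) (by positivity)
  have hsmall : ∀ δ : ℝ, 0 < δ → ∃ n : ℕ, ∀ x y, E n x y → dist x y < δ := fun δ hδ => by
    obtain ⟨n, hn⟩ := exists_nat_one_div_lt (show 0 < δ / 4 by positivity)
    exact ⟨n, fun x y hxy => by linarith [hE n x y hxy]⟩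
  refine ⟨seqTop E, fun U hU => (isOpen_seqTop E).2 fun x hx => ?_,
    metrizable_seqTop E fun x y hxy => ?_, covDimLE_seqTop E, fun U hU x hxM hxU => ?_⟩
  · obtain ⟨δ, hδ, hb⟩ := Metric.isOpen_iff.1 hU x hx
    obtain ⟨n, hn⟩ := hsmall δ hδ
    refine ⟨n + 1, fun y hy => hb ?_⟩
    rw [mem_ball, dist_comm]
    exact hn x y (hy n (Nat.lt_succ_self n))
  · by_contra hne
    obtain ⟨n, hn⟩ := hsmall _ (dist_pos.2 hne)
    exact lt_irrefl _ (hn x y (hxy n))
  · obtain ⟨n, hn⟩ := (isOpen_seqTop E).1 hU x hxU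
    refine mem_of_superset ?_ hn
    have : (⋂ m ∈ Iio n, {y | E m x y}) ∈ 𝓝 x :=
      (biInter_mem (finite_Iio n)).2 fun m _ => hEn m x hxM
    refine mem_of_superset this fun y hy m hm => ?_
    simp only [mem_iInter] at hy
    exact hy m hm

theorem aleph0_mem_admissible {X : Type u} [τ : TopologicalSpace X]
    [TopologicalSpace.MetrizableSpace X] [Nonempty X] (h : CountableDimensional X) :
    Cardinal.aleph0 ∈ admissible MDim X τ := by
  obtain ⟨S, hS, hd⟩ := h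
  choose T h1 h2 h3 h4 using fun k => exists_extension (hd k)
  refine ⟨ULift.{u} ℕ, fun k => T k.down, by simp,
    fun k => ⟨h1 k.down, h2 k.down, inferInstance, h3 k.down⟩,
    fun U => ⟨fun hU k => h1 k.down U hU, fun hU => isOpen_iff_mem_nhds.2 fun x hx => ?_⟩⟩
  have : x ∈ ⋃ k, S k := by rw [hS]; trivial
  obtain ⟨k, hk⟩ := mem_iUnion.1 this
  exact h4 k U (hU ⟨k⟩) x hk hx

end Pool.Agent.Lib.MP_e04a0d_gt
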