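import Mathlib
import Pool.Agent.Lib.MP_e04a0d_gt.Defs
import Pool.Agent.Lib.MP_e04a0d_gt.Lower
import Pool.Agent.Lib.MP_e04a0d_gt.Upper

/-! A metrizable intersection of countably many topologies of dimension at most `0` is
countable-dimensional. -/

namespace Pool.Agent.Lib.MP_e04a0d_gt

open Set Filter Topology Metric

universe u

/-- A sequence of disjoint open families with closed cores that contains small sets at every
point. -/
theorem exists_disjoint_base (X : Type u) [MetricSpace X] :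
    ∃ (W : ℕ → X → Set X) (A : ℕ → Set X), (∀ j a, IsOpen (W j a)) ∧
      (∀ j a b x, x ∈ W j a → x ∈ W j b → a = b) ∧ (∀ j, IsClosed (A j)) ∧
      (∀ j, A j ⊆ ⋃ a, W j a) ∧
      ∀ x, ∀ δ : ℝ, 0 < δ → ∃ j a, x ∈ A j ∧ x ∈ W j a ∧ W j a ⊆ ball x δ := by
  classical
  obtain ⟨lo, wo⟩ := exists_wellFoundedLT (α := X)
  let e : ℕ → ℝ := fun n => 1 / ((n : ℝ) + 1)
  have he : ∀ n, 0 < e n := fun n => by positivity
  let F : ℕ → X → Set X := fun j a =>
    {x | dist x a + e j.unpair.2 ≤ e j.unpair.1 ∧ ∀ b, b < a → e j.unpair.1 ≤ dist x b}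
  let W : ℕ → X → Set X := fun j a => ⋃ x ∈ F j a, ball x (e j.unpair.2 / 2)
  have hW : ∀ j a z, z ∈ W j a ↔ ∃ x ∈ F j a, dist z x < e j.unpair.2 / 2 := fun j a z => by
    simp [W]
  have hsep : ∀ j a b z, a < b → z ∈ W j a → z ∈ W j b → False := by
    intro j a b z hab ha hb
    obtain ⟨x, hx, h1⟩ := (hW j a z).1 ha
    obtain ⟨y, hy, h2⟩ := (hW j b z).1 hb
    have h3 := hy.2 a hab
    have h4 := hx.1
    have h5 := dist_triangle y x a
    have h6 := dist_triangle_left y x z
    linarith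
  refine ⟨W, fun j => closure (⋃ a, F j a), fun j a => isOpen_biUnion fun _ _ => isOpen_ball,
    fun j a b z ha hb => ?_, fun j => isClosed_closure, fun j z hz => ?_, fun x δ hδ => ?_⟩
  · rcases lt_trichotomy a b with h | h | h
    exacts [(hsep j a b z h ha hb).elim, h, (hsep j b a z h hb ha).elim]
  · obtain ⟨x, hx, h1⟩ := Metric.mem_closure_iff.1 hz (e j.unpair.2 / 2) (half_pos (he _))
    obtain ⟨a, ha⟩ := mem_iUnion.1 hx
    exact mem_iUnion.2 ⟨a, (hW j a z).2 ⟨x, ha, h1⟩⟩
  · obtain ⟨m, hm⟩ := exists_nat_one_div_lt (show 0 < δ / 3 by positivity)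
    have hne : {a | dist x a < e m}.Nonempty := ⟨x, by simpa using he m⟩
    let a := wo.wf.min _ hne
    have ha : dist x a < e m := wo.wf.min_mem _ hne
    obtain ⟨n, hn⟩ := exists_nat_one_div_lt (show 0 < e m - dist x a by linarith)
    have hxF : x ∈ F (Nat.pair m n) a := by
      simp only [F, Nat.unpair_pair, mem_ofPred_eq]
      refine ⟨by simp only [e] at hn ⊢; linarith, fun b hb => ?_⟩
      by_contra hlt
      exact wo.wf.not_lt_min {a | dist x a < e m} (not_le.1 hlt) hb
    refine ⟨Nat.pair m n, a, subset_closure (mem_iUnion.2 ⟨a, hxF⟩),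
      (hW _ _ _).2 ⟨x, hxF, by simpa using he _⟩, fun z hz => ?_⟩
    obtain ⟨y, hy, h1⟩ := (hW _ _ _).1 hz
    have h2 := hy.1
    simp only [Nat.unpair_pair] at h1 h2
    have h3 := dist_triangle4 z y a x
    have h4 : 0 ≤ dist y a := dist_nonneg
    have h5 := he n
    have h6 : e m < δ / 3 := hm
    rw [mem_ball]
    rw [dist_comm a x] at h3
    linarith

/-- A subspace on which the sets `C j` are relatively clopen has dimension at most `0`. -/
theorem covDimLE_zero_of_clopen {X : Type u} [MetricSpace X] {W : ℕ → X → Set X}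
    {A C : ℕ → Set X} (hWo : ∀ j a, IsOpen (W j a))
    (hWd : ∀ j a b x, x ∈ W j a → x ∈ W j b → a = b)
    (hs : ∀ x, ∀ δ : ℝ, 0 < δ → ∃ j a, x ∈ A j ∧ x ∈ W j a ∧ W j a ⊆ ball x δ)
    (hAC : ∀ j, A j ⊆ C j) (hCW : ∀ j, C j ⊆ ⋃ a, W j a) (Y : Set X)
    (hY : ∀ j, ∀ x ∈ Y, ∀ᶠ y in 𝓝 x, y ∈ Y → (y ∈ C j ↔ x ∈ C j)) : CovDimLE Y 0 := by
  let E : ℕ → Setoid Y := fun j =>
    ⟨fun x y => ∀ a, (x.1 ∈ C j ∧ x.1 ∈ W j a) ↔ (y.1 ∈ C j ∧ y.1 ∈ W j a),
      fun _ _ => Iff.rfl, fun h a => (h a).symm, fun h h' a => (h a).trans (h' a)⟩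
  have hE : ∀ j (x : Y), {y | E j x y} ∈ 𝓝 x := by
    intro j x
    have h1 : ∀ᶠ y : Y in 𝓝 x, (y.1 ∈ C j ↔ x.1 ∈ C j) := by
      have := continuous_subtype_val.continuousAt.tendsto.eventually (hY j x.1 x.2)
      filter_upwards [this] with y hy using hy y.2
    by_cases hx : x.1 ∈ C j
    · obtain ⟨b, hb⟩ := mem_iUnion.1 (hCW j hx)
      have h2 : ∀ᶠ y : Y in 𝓝 x, y.1 ∈ W j b :=
        continuous_subtype_val.continuousAt.tendsto.eventually ((hWo j b).mem_nhds hb)
      filter_upwards [h1, h2] with y hy1 hy2 a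
      exact ⟨fun h => ⟨hy1.2 hx, hWd j b a _ hb h.2 ▸ hy2⟩,
        fun h => ⟨hx, hWd j b a _ hy2 h.2 ▸ hb⟩⟩
    · filter_upwards [h1] with y hy1 a
      exact ⟨fun h => (hx h.1).elim, fun h => (hx (hy1.1 h.1)).elim⟩
  have htop : (instTopologicalSpaceSubtype : TopologicalSpace Y) = seqTop E := by
    refine TopologicalSpace.ext_nhds fun x => Filter.ext fun U => ?_
    rw [mem_nhds_seqTop]
    constructor
    · intro hU
      obtain ⟨δ, hδ, hb⟩ := Metric.mem_nhds_iff.1 hU
      obtain ⟨j, a, h1, h2, h3⟩ := hs x.1 δ hδ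
      exact ⟨j + 1, fun y hy => hb (h3 ((hy j (Nat.lt_succ_self j) a).1 ⟨hAC j h1, h2⟩).2)⟩
    · rintro ⟨n, hn⟩
      refine mem_of_superset ?_ hn
      have : (⋂ m ∈ Iio n, {y | E m x y}) ∈ 𝓝 x :=
        (biInter_mem (finite_Iio n)).2 fun m _ => hE m x
      refine mem_of_superset this fun y hy m hm => ?_
      simp only [mem_iInter] at hy
      exact hy m hm
  have := covDimLE_seqTop E
  rwa [← htop] at this

/-- Every point is approached from some test set through one colour only. -/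
theorem exists_test {X : Type u} [MetricSpace X] (T : ℕ → TopologicalSpace X)
    (hT : ∀ U : Set X, IsOpen U ↔ ∀ i, @IsOpen X (T i) U) (C : ℕ → ℕ → Set X)
    (hC : ∀ i j, @IsClopen X (T i) (C i j)) (x : X) :
    ∃ (i : ℕ) (l : List (ℕ × ℕ × Bool)),
      x ∈ closure {y | ∀ p ∈ l, (y ∈ C p.1 p.2.1 ↔ p.2.2 = true)} ∧
      ∀ j, ∀ᶠ y in 𝓝 x, y ∈ {y | ∀ p ∈ l, (y ∈ C p.1 p.2.1 ↔ p.2.2 = true)} →
        (y ∈ C i j ↔ x ∈ C i j) := by
  classical
  by_contra hcon
  let D : List (ℕ × ℕ × Bool) → Set X := fun l =>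
    {y | ∀ p ∈ l, (y ∈ C p.1 p.2.1 ↔ p.2.2 = true)}
  have step : ∀ (k : ℕ) (l : {l // x ∈ closure (D l)}), ∃ j,
      x ∈ closure (D ((k, j, decide (x ∉ C k j)) :: l.1)) := by
    intro k l
    by_contra h
    refine hcon ⟨k, l.1, l.2, fun j => ?_⟩
    have h1 : x ∉ closure (D ((k, j, decide (x ∉ C k j)) :: l.1)) := fun h' => h ⟨j, h'⟩
    filter_upwards [isClosed_closure.isOpen_compl.mem_nhds h1] with y hy hyD
    by_contra hne
    refine hy (subset_closure fun p hp => ?_)
    rcases List.mem_cons.1 hp with rfl | hp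
    · simp only [decide_eq_true_eq]
      tauto
    · exact hyD p hp
  choose J hJ using step
  let L : ℕ → {l // x ∈ closure (D l)} := fun k => Nat.rec
    ⟨[], subset_closure fun p hp => by simp at hp⟩
    (fun k l => ⟨(k, J k l, decide (x ∉ C k (J k l))) :: l.1, hJ k l⟩) k
  have hL : ∀ k, (L (k + 1)).1 = (k, J k (L k), decide (x ∉ C k (J k (L k)))) :: (L k).1 :=
    fun k => rfl
  have hmem : ∀ k i, i ≤ k →
      (i, J i (L i), decide (x ∉ C i (J i (L i)))) ∈ (L (k + 1)).1 := by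
    intro k
    induction k with
    | zero =>
      intro i hi
      obtain rfl := Nat.le_zero.1 hi
      rw [hL]
      exact List.mem_cons_self
    | succ k ih =>
      intro i hi
      rw [hL]
      rcases Nat.of_le_succ hi with h | rfl
      · exact List.mem_cons_of_mem _ (ih i h)
      · exact List.mem_cons_self
  choose y hyD hyd using fun k : ℕ => Metric.mem_closure_iff.1 (L (k + 1)).2
    (1 / ((k : ℝ) + 1)) (by positivity)
  let V : ℕ → Set X := fun i => {z | z ∈ C i (J i (L i)) ↔ x ∈ C i (J i (L i))}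
  have hyV : ∀ k i, i ≤ k → y k ∉ V i := fun k i hik h => by
    have h1 := hyD k _ (hmem k i hik)
    simp only [decide_eq_true_eq] at h1
    have h2 : y k ∈ C i (J i (L i)) ↔ x ∈ C i (J i (L i)) := h
    tauto
  have hxV : ∀ i, x ∈ V i := fun i => Iff.rfl
  have hyx : ∀ k, y k ≠ x := fun k h => hyV k 0 (Nat.zero_le k) (h ▸ hxV 0)
  have hVo : ∀ i, @IsOpen X (T i) (V i) := fun i => by
    by_cases h : x ∈ C i (J i (L i))
    · have : V i = C i (J i (L i)) := by ext; simp [V, h]
      rw [this]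
      exact (hC i _).2
    · have : V i = (C i (J i (L i)))ᶜ := by ext; simp [V, h]
      rw [this]
      exact (@isOpen_compl_iff X _ (T i)).2 (hC i _).1
  have hN := union_mem_nhds T hT x (fun i => V i ∩ (y '' Iio i)ᶜ)
    (fun i => @IsOpen.inter X (T i) _ _ (hVo i)
      ((hT _).1 ((finite_Iio i).image y).isClosed.isOpen_compl i))
    (fun i => ⟨hxV i, by rintro ⟨k, -, hk⟩; exact hyx k hk⟩)
  obtain ⟨δ, hδ, hb⟩ := Metric.mem_nhds_iff.1 hN
  obtain ⟨k, hk⟩ := exists_nat_one_div_lt hδ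
  have hyk : y k ∈ ball x δ := by
    rw [mem_ball, dist_comm]
    exact (hyd k).trans hk
  rcases hb hyk with h | h
  · exact hyx k h
  · obtain ⟨i, hi⟩ := mem_iUnion.1 h
    rcases le_or_gt i k with hik | hik
    · exact hyV k i hik hi.1
    · exact hi.2 ⟨k, hik, rfl⟩

theorem countableDimensional_of_seq {X : Type u} [MetricSpace X] (T : ℕ → TopologicalSpace X)
    (hT : ∀ U : Set X, IsOpen U ↔ ∀ i, @IsOpen X (T i) U)
    (h0 : ∀ i (w v : Set X), IsClosed w → IsOpen v → w ⊆ v →
      ∃ C, @IsClopen X (T i) C ∧ w ⊆ C ∧ C ⊆ v) : CountableDimensional X := by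
  obtain ⟨W, A, hWo, hWd, hA, hAW, hs⟩ := exists_disjoint_base X
  choose C hC hAC hCW using fun i j => h0 i (A j) (⋃ a, W j a) (hA j)
    (isOpen_iUnion (hWo j)) (hAW j)
  obtain ⟨e, he⟩ := exists_surjective_nat (ℕ × List (ℕ × ℕ × Bool))
  let D : List (ℕ × ℕ × Bool) → Set X := fun l =>
    {y | ∀ p ∈ l, (y ∈ C p.1 p.2.1 ↔ p.2.2 = true)}
  let Y : ℕ × List (ℕ × ℕ × Bool) → Set X := fun q => {x | x ∈ closure (D q.2) ∧
    ∀ j, ∀ᶠ y in 𝓝 x, y ∈ D q.2 → (y ∈ C q.1 j ↔ x ∈ C q.1 j)}
  refine ⟨fun k => Y (e k), eq_univ_of_forall fun x => ?_, fun k => ?_⟩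
  · obtain ⟨i, l, h⟩ := exists_test T hT C hC x
    obtain ⟨k, hk⟩ := he (i, l)
    exact mem_iUnion.2 ⟨k, by rw [hk]; exact h⟩
  · refine covDimLE_zero_of_clopen hWo hWd hs (hAC (e k).1) (hCW (e k).1) _ fun j x hx => ?_
    filter_upwards [(hx.2 j).eventually_nhds] with y hy hyY
    obtain ⟨z, hz1, hz2⟩ := mem_closure_iff_nhds.1 hyY.1 _ (hy.and (hyY.2 j))
    exact (hz1.2 hz2).symm.trans (hz1.1 hz2)

/-- A metrizable intersection of countably many topologies of dimension at most `0` is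
countable-dimensional. -/
theorem countableDimensional_of_countable {X : Type u} [τ : TopologicalSpace X]
    [TopologicalSpace.MetrizableSpace X] {I : Type*} [Countable I] (T : I → TopologicalSpace X)
    (h0 : ∀ i, @CovDimLE X (T i) 0)
    (hT : ∀ U : Set X, IsOpen U ↔ ∀ i, @IsOpen X (T i) U) : CountableDimensional X := by
  let : MetricSpace X := TopologicalSpace.metrizableSpaceMetric X
  obtain ⟨e, he⟩ := exists_surjective_nat (Option I)
  refine countableDimensional_of_seq (fun n => (e n).elim ⊥ T) (fun U => ?_) fun n w v hw hv hwv => ?_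
  · refine (hT U).trans ⟨fun h n => ?_, fun h i => ?_⟩
    · cases hn : e n with
      | none => trivial
      | some i => exact h i
    · obtain ⟨n, hn⟩ := he (some i)
      have := h n
      rwa [hn] at this
  · cases hn : e n with
    | none => exact ⟨w, @isClopen_discrete X ⊥ (discreteTopology_bot X) w, subset_rfl, hwv⟩
    | some i =>
      exact @exists_clopen_between X (T i) (h0 i) w v
        ((@isOpen_compl_iff X w (T i)).1 ((hT _).1 hw.isOpen_compl i)) ((hT _).1 hv i) hwv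

/-- Every metric space is covered by the members of any uncountable subfamily of a family of
subspaces of dimension at most `0` indexed by the unit interval. -/
theorem exists_level_cover (X : Type u) [MetricSpace X] :
    ∃ S : ℝ → Set X, (∀ t ∈ Ioo (0 : ℝ) 1, CovDimLE (S t) 0) ∧ ∀ x, {t | x ∉ S t}.Countable := by
  obtain ⟨W, A, hWo, hWd, hA, hAW, hs⟩ := exists_disjoint_base X
  choose f hf0 hf1 _ using fun j => exists_continuous_zero_one_of_isClosed (hA j)
    (isOpen_iUnion (hWo j)).isClosed_compl (disjoint_compl_right_iff_subset.2 (hAW j))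
  refine ⟨fun t => {x | ∀ j, f j x ≠ t}, fun t ht => ?_, fun x => ?_⟩
  · refine covDimLE_zero_of_clopen (C := fun j => {x | f j x < t}) hWo hWd hs
      (fun j x hx => ?_) (fun j x hx => ?_) _ fun j x hx => ?_
    · have : f j x = 0 := hf0 j hx
      show f j x < t
      rw [this]
      exact ht.1
    · by_contra hn
      have h1 : f j x = 1 := hf1 j hn
      have h2 : f j x < t := hx
      linarith [ht.2]
    · rcases lt_or_gt_of_ne (hx j) with h | h
      · filter_upwards [(isOpen_lt (f j).continuous continuous_const).mem_nhds h] with y hy _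
        exact ⟨fun _ => h, fun _ => hy⟩
      · filter_upwards [(isOpen_lt continuous_const (f j).continuous).mem_nhds h] with y hy _
        exact ⟨fun h' => (lt_asymm hy h').elim, fun h' => (lt_asymm h h').elim⟩
  · refine (countable_range fun j => f j x).mono fun t ht => ?_
    by_contra hn
    exact ht fun j hj => hn ⟨j, hj⟩

theorem aleph_one_mem_admissible {X : Type u} [τ : TopologicalSpace X]
    [TopologicalSpace.MetrizableSpace X] [Nonempty X] :
    Cardinal.aleph 1 ∈ admissible MDim X τ := by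
  let : MetricSpace X := TopologicalSpace.metrizableSpaceMetric X
  obtain ⟨S, hd, hS⟩ := exists_level_cover X
  let I : Type u := (Cardinal.aleph 1 : Cardinal.{u}).out
  have hI : Cardinal.mk I = Cardinal.aleph 1 := Cardinal.mk_out _
  obtain ⟨g⟩ : Nonempty (I ↪ Ioo (0 : ℝ) 1) := by
    rw [← Cardinal.lift_mk_le', hI, Cardinal.mk_Ioo_real zero_lt_one]
    simpa using Cardinal.aleph_one_le_continuum
  choose T h1 h2 h3 h4 using fun i : I => exists_extension (τ := τ) (hd (g i).1 (g i).2)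
  refine ⟨I, T, hI, fun i => ⟨h1 i, h2 i, inferInstance, h3 i⟩,
    fun U => ⟨fun hU i => h1 i U hU, fun hU => isOpen_iff_mem_nhds.2 fun x hx => ?_⟩⟩
  have : ∃ i, x ∈ S (g i).1 := by
    by_contra hn
    have hc := (hS x).to_subtype
    have : Countable I := Function.Injective.countable
      (f := fun i : I => (⟨(g i).1, fun h => hn ⟨i, h⟩⟩ : {t | x ∉ S t}))
      fun i i' h => g.injective (Subtype.ext (Subtype.mk.inj h))
    have h5 := Cardinal.mk_le_aleph0_iff.2 this
    rw [hI] at h5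
    exact not_lt_of_ge h5 Cardinal.aleph0_lt_aleph_one
  obtain ⟨i, hi⟩ := this
  exact h4 i U (hU i) x hi hx

end Pool.Agent.Lib.MP_e04a0d_gt
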