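import Mathlib
import Pool.Agent.Lib.MP_e04a0d_gt.Defs
import Pool.Agent.Lib.MP_e04a0d_gt.Lower

/-! An intersection of `k + 1` topologies of dimension at most `0` has dimension at most
`2 ^ k - 1`. -/

namespace Pool.Agent.Lib.MP_e04a0d_gt

open Set Metric Topology Filter

universe u

/-- Skew systems of tuples have at most `2 ^ |J|` members. -/
theorem skew_card_le_two_pow {J β ι : Type*} [Fintype J] (A : Finset ι) (ρ : ι → ℝ)
    (a b : ι → J → β) (h1 : ∀ k ∈ A, ∀ j, a k j ≠ b k j)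
    (h2 : ∀ k ∈ A, ∀ l ∈ A, k ≠ l → ρ l ≤ ρ k → ∃ j, a k j = b l j) :
    A.card ≤ 2 ^ Fintype.card J := by
  classical
  let B : Set β := (⋃ k ∈ A, range (a k)) ∪ (⋃ k ∈ A, range (b k))
  have hB : B.Finite :=
    (A.finite_toSet.biUnion fun k _ => finite_range _).union
      (A.finite_toSet.biUnion fun k _ => finite_range _)
  obtain ⟨φ, hφ⟩ := Set.countable_iff_exists_injOn.1 hB.countable
  let u : A → Finset J → ℝ := fun k S => ∏ j ∈ Finset.univ \ S, (-(φ (a k j) : ℝ))
  let w : A → Finset J → ℝ := fun l S => ∏ j ∈ S, (φ (b l j) : ℝ)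
  have hpair : ∀ k l : A, ∑ S, w l S * u k S = ∏ j, ((φ (b l j) : ℝ) + -(φ (a k j) : ℝ)) := by
    intro k l
    rw [Finset.prod_add, Finset.powerset_univ]
  have hli : LinearIndependent ℝ u := by
    rw [Fintype.linearIndependent_iff]
    intro c hc
    by_contra hne
    push Not at hne
    have hne' : (Finset.univ.filter fun i : A => c i ≠ 0).Nonempty := by
      obtain ⟨i, hi⟩ := hne
      exact ⟨i, Finset.mem_filter.2 ⟨Finset.mem_univ _, hi⟩⟩
    obtain ⟨l, hl, hmin⟩ := Finset.exists_min_image _ (fun i : A => ρ i) hne'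
    have hcl : c l ≠ 0 := (Finset.mem_filter.1 hl).2
    have h0 : ∑ k, c k * ∑ S, w l S * u k S = 0 := by
      have e : ∑ k, c k * ∑ S, w l S * u k S = ∑ S, w l S * (∑ k, c k • u k) S := by
        simp only [Finset.mul_sum, Finset.sum_apply, Pi.smul_apply, smul_eq_mul]
        rw [Finset.sum_comm]
        refine Finset.sum_congr rfl fun S _ => Finset.sum_congr rfl fun k _ => by ring
      rw [e, hc]
      simp
    rw [Finset.sum_eq_single l] at h0
    · rw [hpair] at h0
      rcases mul_eq_zero.1 h0 with h | h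
      · exact hcl h
      · obtain ⟨j, -, hj⟩ := Finset.prod_eq_zero_iff.1 h
        have hj' : φ (a l j) = φ (b l j) := by
          have : (φ (a l j) : ℝ) = φ (b l j) := by linarith
          exact_mod_cast this
        refine h1 l l.2 j (hφ ?_ ?_ hj')
        · exact Or.inl (mem_biUnion l.2 ⟨j, rfl⟩)
        · exact Or.inr (mem_biUnion l.2 ⟨j, rfl⟩)
    · intro k _ hkl
      by_cases hk : c k = 0
      · rw [hk, zero_mul]
      · obtain ⟨j, hj⟩ := h2 k k.2 l l.2 (fun h => hkl (Subtype.ext h))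
          (hmin k (Finset.mem_filter.2 ⟨Finset.mem_univ _, hk⟩))
        rw [hpair, Finset.prod_eq_zero (Finset.mem_univ j) (by rw [hj]; ring), mul_zero]
    · intro h
      exact (h (Finset.mem_univ _)).elim
  have := hli.fintype_card_le_finrank
  rwa [Module.finrank_fintype_fun_eq_card, Fintype.card_finset, Fintype.card_coe] at this

/-- A chain of closures of nonempty cliques has at most `2 ^ (|J| - 1)` members. -/
theorem clique_chain_card_le {X J β : Type*} (t : X → J → β) [Fintype J] (S : ℝ → Set X)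
    (hS : Antitone S) (A : Finset ℝ) (hne : ∀ s ∈ A, (S s).Nonempty)
    (hcl : ∀ s ∈ A, ∀ x ∈ S s, ∀ y ∈ S s, Adj t x y)
    (hA : Set.InjOn (fun s => perp t (perp t (S s))) A) :
    2 * A.card ≤ 2 ^ Fintype.card J := by
  classical
  have hK : Antitone fun s => perp t (perp t (S s)) :=
    fun s s' h => perp_anti t (perp_anti t (hS h))
  have key : ∀ l : A, ∃ (a : X) (b : Option X), a ∈ perp t (perp t (S l)) ∧
      (∀ y, b = some y → ¬ Adj t y a) ∧
      ∀ k ∈ A, (l : ℝ) < k → ∃ y, b = some y ∧ y ∈ perp t (S k) := by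
    rintro ⟨l, hl⟩
    by_cases hmax : (A.filter fun k => l < k).Nonempty
    · set m := (A.filter fun k => l < k).min' hmax with hm
      have hmA := Finset.mem_filter.1 ((A.filter fun k => l < k).min'_mem hmax)
      have hnsub : ¬ perp t (perp t (S l)) ⊆ perp t (perp t (S m)) := fun H =>
        hmA.2.ne (hA hl hmA.1 (Subset.antisymm H (hK hmA.2.le)))
      obtain ⟨a, hal, ham⟩ := not_subset.1 hnsub
      simp only [perp, mem_ofPred_eq, not_forall] at ham
      obtain ⟨b, hb, hab⟩ := ham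
      refine ⟨a, some b, hal, ?_, fun k hk hlk => ⟨b, rfl, ?_⟩⟩
      · rintro y hy
        cases hy
        exact hab
      · exact perp_anti t (hS (Finset.min'_le _ k (Finset.mem_filter.2 ⟨hk, hlk⟩))) hb
    · obtain ⟨a, ha⟩ := hne l hl
      refine ⟨a, none, subset_perp_perp t _ ha, fun y hy => (by cases hy), fun k hk hlk => ?_⟩
      exact (hmax ⟨k, Finset.mem_filter.2 ⟨hk, hlk⟩⟩).elim
  choose a b h1 h2 h3 using key
  let α : A → J → Option β := fun k j => some (t (a k) j)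
  let γ : A → J → Option β := fun k j => (b k).map fun y => t y j
  have e1 : ∀ k j, α k j ≠ γ k j := by
    intro k j h
    rcases hb : b k with _ | y
    · simp [α, γ, hb] at h
    · simp only [α, γ, hb, Option.map_some, Option.some.injEq] at h
      exact h2 k y hb ⟨j, h.symm⟩
  have e2 : ∀ k l : A, (l : ℝ) < k → ∃ j, α k j = γ l j := by
    intro k l hlk
    obtain ⟨y, hy, hyk⟩ := h3 l k k.2 hlk
    obtain ⟨j, hj⟩ := h1 k y hyk
    exact ⟨j, by simp [α, γ, hy, hj]⟩
  have e3 : ∀ k l : A, ∃ j, α k j = α l j := by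
    intro k l
    have : Adj t (a k) (a l) := by
      rcases le_total (k : ℝ) l with h | h
      · exact clique_perp_perp t (hcl k k.2) (h1 k) (hK h (h1 l))
      · exact clique_perp_perp t (hcl l l.2) (hK h (h1 k)) (h1 l)
    obtain ⟨j, hj⟩ := this
    exact ⟨j, by simp [α, hj]⟩
  have h := skew_card_le_two_pow (J := J) (Finset.univ : Finset (A ⊕ A))
    (Sum.elim (fun k => -Real.exp k) (fun k => Real.exp k)) (Sum.elim γ α) (Sum.elim α γ) ?_ ?_
  · rw [Finset.card_univ, Fintype.card_sum, Fintype.card_coe] at h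
    omega
  · rintro (k | k) - j
    · exact (e1 k j).symm
    · exact e1 k j
  · rintro (k | k) - (l | l) - hkl hρ
    · simp only [Sum.elim_inl, neg_le_neg_iff, Real.exp_le_exp] at hρ
      have : (k : ℝ) < l := lt_of_le_of_ne hρ fun h => hkl (by rw [Subtype.ext h])
      obtain ⟨j, hj⟩ := e2 l k this
      exact ⟨j, hj.symm⟩
    · simp only [Sum.elim_inl, Sum.elim_inr] at hρ
      linarith [Real.exp_pos (k : ℝ), Real.exp_pos (l : ℝ)]
    · exact e3 k l
    · simp only [Sum.elim_inr, Real.exp_le_exp] at hρ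
      have : (l : ℝ) < k := lt_of_le_of_ne hρ fun h => hkl (by rw [Subtype.ext h])
      exact e2 k l this

/-- The covering lemma with the bound `2 ^ (|J| - 1)` on the order. -/
theorem exists_cover_sharp {X : Type u} [MetricSpace X] {J β : Type*} [Fintype J] {N : ℕ}
    (hJ : 2 ^ Fintype.card J ≤ 2 * N)
    (t : X → J → β) (hN : ∀ x, {y | Adj t x y} ∈ 𝓝 x) :
    ∃ 𝒱 : Set (Set X), (∀ V ∈ 𝒱, IsOpen V) ∧ ⋃₀ 𝒱 = univ ∧
      (∀ V ∈ 𝒱, ∀ z ∈ V, ∀ z' ∈ V, ∃ a b, Adj t z a ∧ Adj t a b ∧ Adj t b z') ∧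
      ∀ x : X, {V | V ∈ 𝒱 ∧ x ∈ V}.encard ≤ (N : ℕ) := by
  classical
  choose r hr hball using fun x => Metric.mem_nhds_iff.1 (hN x)
  let S : X → ℝ → Set X := fun z s => {x | dist x z + s < r x / 2}
  let K : X → ℝ → Set X := fun z s => perp t (perp t (S z s))
  have hSanti : ∀ z, Antitone (S z) := fun z s s' h x hx => by
    simp only [S, mem_ofPred_eq] at hx ⊢; linarith
  have hSS : ∀ z z' s s', dist z z' + s' ≤ s → S z s ⊆ S z' s' := fun z z' s s' h x hx => by
    simp only [S, mem_ofPred_eq] at hx ⊢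
    linarith [dist_triangle x z z']
  have hKK : ∀ z z' s s', dist z z' + s' ≤ s → K z s ⊆ K z' s' := fun z z' s s' h =>
    perp_anti t (perp_anti t (hSS z z' s s' h))
  have hclique : ∀ z s, 0 ≤ s → ∀ x ∈ S z s, ∀ y ∈ S z s, Adj t x y := by
    intro z s hs x hx y hy
    simp only [S, mem_ofPred_eq] at hx hy
    have hd : dist y x ≤ dist y z + dist x z := dist_triangle_right y x z
    rcases le_total (r x) (r y) with h | h
    · exact Adj.symm (hball y (show x ∈ ball y (r y) by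
        rw [mem_ball, dist_comm]; linarith))
    · exact hball x (show y ∈ ball x (r x) by rw [mem_ball]; linarith)
  have hchain : ∀ z (A : Finset ℝ), (∀ s ∈ A, 0 ≤ s ∧ (S z s).Nonempty) →
      Set.InjOn (K z) A → A.card ≤ N := fun z A hA hinj => by
    have := clique_chain_card_le t (S z) (hSanti z) A (fun s hs => (hA s hs).2)
      (fun s hs => hclique z s (hA s hs).1) hinj
    omega
  let H : Set X → Set X := fun 𝒦 =>
    {z | ∃ s δ : ℝ, 0 ≤ s ∧ 0 < δ ∧ (S z (s + δ)).Nonempty ∧ K z (s + δ) = 𝒦 ∧ K z s = 𝒦}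
  refine ⟨range H, ?_, ?_, ?_, fun z => ?_⟩
  · rintro _ ⟨𝒦, rfl⟩
    refine Metric.isOpen_iff.2 ?_
    rintro z ⟨s, δ, hs, hδ, hne, h1, h2⟩
    refine ⟨δ / 3, by positivity, fun z' hz' => ?_⟩
    rw [mem_ball] at hz'
    have hz'' : dist z z' < δ / 3 := by rwa [dist_comm]
    have e1 : K z (s + δ) ⊆ K z' (s + δ / 3 + δ / 3) := hKK _ _ _ _ (by linarith)
    have e2 : K z' (s + δ / 3 + δ / 3) ⊆ K z' (s + δ / 3) :=
      hKK _ _ _ _ (by rw [dist_self]; linarith)
    have e3 : K z' (s + δ / 3) ⊆ K z s := hKK _ _ _ _ (by linarith)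
    refine ⟨s + δ / 3, δ / 3, by positivity, by positivity,
      hne.mono (hSS _ _ _ _ (by linarith)), ?_, ?_⟩
    · exact Subset.antisymm (h2 ▸ e2.trans e3) (h1 ▸ e1)
    · exact Subset.antisymm (h2 ▸ e3) (h1 ▸ e1.trans e2)
  · refine eq_univ_of_forall fun z => ?_
    set D := N + 1 with hD
    have hDpos : (0 : ℝ) < D := by positivity
    set c : ℝ := r z / (2 * D) with hc
    have hcpos : 0 < c := div_pos (hr z) (by positivity)
    let A : Finset ℝ := (Finset.range D).image fun k : ℕ => (k : ℝ) * c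
    have hAcard : A.card = D := by
      rw [Finset.card_image_of_injective _ (fun k l h => by
        have := mul_right_cancel₀ hcpos.ne' h
        exact_mod_cast this), Finset.card_range]
    have hA : ∀ s ∈ A, 0 ≤ s ∧ s < r z / 2 := by
      intro s hs
      obtain ⟨k, hk, rfl⟩ := Finset.mem_image.1 hs
      have hk' : (k : ℝ) < D := by exact_mod_cast Finset.mem_range.1 hk
      refine ⟨by positivity, ?_⟩
      calc (k : ℝ) * c < D * c := mul_lt_mul_of_pos_right hk' hcpos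
        _ = r z / 2 := by rw [hc]; field_simp
    have hnot : ¬ Set.InjOn (K z) A := fun hinj => by
      have := hchain z A (fun s hs => ⟨(hA s hs).1, z, by
        simp only [S, mem_ofPred_eq, dist_self]
        linarith [(hA s hs).2]⟩) hinj
      omega
    have : ∃ s ∈ A, ∃ s' ∈ A, s < s' ∧ K z s' = K z s := by
      by_contra hcon
      refine hnot fun s hs s' hs' h => ?_
      rcases lt_trichotomy s s' with h' | h' | h'
      · exact (hcon ⟨s, hs, s', hs', h', h.symm⟩).elim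
      · exact h'
      · exact (hcon ⟨s', hs', s, hs, h', h⟩).elim
    obtain ⟨s, hs, s', hs', hlt, heq⟩ := this
    refine ⟨H (K z s), ⟨_, rfl⟩, s, s' - s, (hA s hs).1, sub_pos.2 hlt, ⟨z, ?_⟩, ?_, rfl⟩
    · simp only [S, mem_ofPred_eq, dist_self]
      linarith [(hA s' hs').2]
    · rw [add_sub_cancel, heq]
  · rintro _ ⟨𝒦, rfl⟩ z ⟨s, δ, hs, hδ, ⟨a, ha⟩, h1, h2⟩ z' ⟨s', δ', hs', hδ', ⟨b, hb⟩, h1', -⟩
    have haK : a ∈ K z s := by rw [h2, ← h1]; exact subset_perp_perp t _ ha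
    have hbK : b ∈ K z s := by rw [h2, ← h1']; exact subset_perp_perp t _ hb
    simp only [S, mem_ofPred_eq] at ha hb
    refine ⟨a, b, Adj.symm (hball a ?_), clique_perp_perp t (hclique z s hs) haK hbK, hball b ?_⟩
    · rw [mem_ball, dist_comm]; linarith [hr a]
    · rw [mem_ball, dist_comm]; linarith [hr b]
  · have hsub : {V | V ∈ range H ∧ z ∈ V} ⊆
        H '' (K z '' {s | 0 ≤ s ∧ (S z s).Nonempty}) := by
      rintro _ ⟨⟨𝒦, rfl⟩, s, δ, hs, hδ, hne, -, h2⟩
      exact ⟨𝒦, ⟨s, ⟨hs, hne.mono (hSanti z (by linarith))⟩, h2⟩, rfl⟩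
    refine (encard_le_encard hsub).trans ((encard_image_le _ _).trans ?_)
    by_contra hcon
    push Not at hcon
    obtain ⟨T, hT, hTc⟩ := Set.exists_subset_encard_eq (Order.add_one_le_of_lt hcon)
    have hTfin : T.Finite := finite_of_encard_eq_coe
      (k := N + 1) (by rw [hTc]; push_cast; rfl)
    choose! g hg0 hg using fun V (hV : V ∈ T) => hT hV
    have hginj : InjOn g T := fun V hV W hW h => by rw [← hg V hV, ← hg W hW, h]
    have h5 := hchain z (hTfin.toFinset.image g) (by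
      intro s hs
      obtain ⟨V, hV, rfl⟩ := Finset.mem_image.1 hs
      exact hg0 V (by simpa using hV)) (by
      intro s hs s' hs' h
      simp only [Finset.coe_image, Finite.coe_toFinset, mem_image] at hs hs'
      obtain ⟨V, hV, rfl⟩ := hs
      obtain ⟨W, hW, rfl⟩ := hs'
      have : V = W := by rw [← hg V hV, ← hg W hW]; exact h
      rw [this])
    rw [Finset.card_image_of_injOn (by simpa using hginj)] at h5
    rw [hTfin.encard_eq_coe_toFinset_card] at hTc
    have : hTfin.toFinset.card = N + 1 := by exact_mod_cast hTc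
    omega

/-- The quantitative lower bound. -/
theorem covDimLE_two_pow {X : Type u} [τ : TopologicalSpace X]
    [TopologicalSpace.MetrizableSpace X] {I : Type*} [Fintype I] (T : I → TopologicalSpace X)
    (h0 : ∀ i, @CovDimLE X (T i) 0)
    (hT : ∀ U : Set X, IsOpen U ↔ ∀ i, @IsOpen X (T i) U) {k : ℕ}
    (hk : Fintype.card I ≤ k + 1) : CovDimLE X (2 ^ k - 1) := by
  let : MetricSpace X := TopologicalSpace.metrizableSpaceMetric X
  intro 𝒰 h𝒰 ho hc
  obtain ⟨𝒲, hWf, hWo, hWc, hW⟩ := exists_star_refinement h𝒰 ho hc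
  have hmain : ∀ {J : Type _} [Fintype J] (t : X → J → Set X), Fintype.card J ≤ k + 1 →
      (∀ x, {y | Adj t x y} ∈ 𝓝 x) → (∀ x y, Adj t x y → ∃ W ∈ 𝒲, x ∈ W ∧ y ∈ W) →
      ∃ 𝒱 : Set (Set X), 𝒱.Finite ∧ (∀ V ∈ 𝒱, IsOpen V) ∧ ⋃₀ 𝒱 = univ ∧
        (∀ V ∈ 𝒱, ∃ U ∈ 𝒰, V ⊆ U) ∧
        ∀ x : X, {V | V ∈ 𝒱 ∧ x ∈ V}.encard ≤ ((2 ^ k - 1 : ℕ) : ℕ∞) + 1 := by
    intro J _ t hJ hN hR
    obtain ⟨𝒱', h1, h2, h3, h4⟩ := exists_cover_sharp (N := 2 ^ k)
      (by rw [← pow_succ']; exact Nat.pow_le_pow_right (by norm_num) hJ) t hN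
    have e : ((2 ^ k - 1 : ℕ) : ℕ∞) + 1 = ((2 ^ k : ℕ) : ℕ∞) := by
      have : 1 ≤ 2 ^ k := Nat.one_le_two_pow
      rw [← Nat.cast_succ]
      congr 1
      omega
    rw [e]
    refine amalgamate h𝒰 h1 h2 ?_ h4
    rintro V hV ⟨z, hz⟩
    obtain ⟨U, hU, hzU⟩ := hW z
    refine ⟨U, hU, fun z' hz' => ?_⟩
    obtain ⟨a, b, e1, e2, e3⟩ := h3 V hV z hz z' hz'
    exact hzU a b z' (hR _ _ e1) (hR _ _ e2) (hR _ _ e3)
  choose 𝒱 hVf hVo hVc hVr hVord using
    fun i => h0 i 𝒲 hWf (fun W hW => (hT W).1 (hWo W hW) i) hWc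
  have hex : ∀ i x, ∃ V ∈ 𝒱 i, x ∈ V := fun i x => by
    have : x ∈ ⋃₀ 𝒱 i := by rw [hVc]; trivial
    exact this
  choose P hP hxP using hex
  have hPP : ∀ i x y, y ∈ P i x → P i x = P i y := fun i x y hy => by
    have := hVord i y
    simp only [CharP.cast_eq_zero, zero_add] at this
    exact encard_le_one_iff.1 this _ _ ⟨hP i x, hy⟩ ⟨hP i y, hxP i y⟩
  rcases isEmpty_or_nonempty I with hI | ⟨⟨i₀⟩⟩
  · refine hmain (J := Option I) (fun x _ => {x}) (by simp) (fun x => ?_) ?_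
    · exact mem_of_superset (((hT {x}).2 fun i => isEmptyElim i).mem_nhds rfl)
        (by rintro y rfl; exact ⟨none, rfl⟩)
    · rintro x y ⟨j, hj⟩
      have hxy : x = y := singleton_injective hj
      have : x ∈ ⋃₀ 𝒲 := by rw [hWc]; trivial
      obtain ⟨W, hW, hxW⟩ := this
      exact ⟨W, hW, hxW, hxy ▸ hxW⟩
  · refine hmain (J := I) (fun x i => P i x) hk (fun x => ?_) ?_
    · refine mem_of_superset (union_mem_nhds T hT x (fun i => P i x)
        (fun i => hVo i _ (hP i x)) (fun i => hxP i x)) ?_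
      rintro y (rfl | hy)
      · exact ⟨i₀, rfl⟩
      · obtain ⟨i, hi⟩ := mem_iUnion.1 hy
        exact ⟨i, hPP i x y hi⟩
    · rintro x y ⟨i, hj⟩
      obtain ⟨W, hW, hPW⟩ := hVr i _ (hP i x)
      have hj' : P i x = P i y := hj
      exact ⟨W, hW, hPW (hxP i x), hPW (hj' ▸ hxP i y)⟩

end Pool.Agent.Lib.MP_e04a0d_gt
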