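import Mathlib
import Pool.Agent.Lib.MP_e04a0d_gt.Defs
import Pool.Agent.Lib.MP_e04a0d_gt.Lower
import Pool.Agent.Lib.MP_e04a0d_gt.Upper

/-! Subsets of large inductive dimension at most `0` in a metric space. -/

namespace Pool.Agent.Lib.MP_e04a0d_gt

open Set Filter Topology Metric

universe u

variable {X : Type u} [MetricSpace X]

/-- `Y` has large inductive dimension at most `0`. -/
def ZD (Y : Set X) : Prop :=
  ∀ A B : Set X, IsClosed A → IsClosed B → (∀ y ∈ Y, y ∈ A → y ∉ B) →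
    ∃ S : Set X, S ⊆ Y ∧ (∀ y ∈ S, y ∉ B) ∧ (∀ y ∈ Y, y ∈ A → y ∈ S) ∧
      (∀ y ∈ Y, y ∈ closure S → y ∈ S) ∧ (∀ y ∈ S, y ∉ closure (Y \ S))

theorem exists_enlarge {A B : Set X} (hA : IsClosed A) (hB : IsClosed B) :
    ∃ A' B' : Set X, IsClosed A' ∧ IsClosed B' ∧ (∀ x, x ∈ A' → x ∈ B' → x ∈ A ∧ x ∈ B) ∧
      (∀ x ∈ A, x ∉ B → A' ∈ 𝓝 x) ∧ (∀ x ∈ B, x ∉ A → B' ∈ 𝓝 x) := by
  rcases A.eq_empty_or_nonempty with rfl | hAne
  · exact ⟨∅, univ, isClosed_empty, isClosed_univ, fun x hx => hx.elim, fun x hx => hx.elim,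
      fun x _ _ => univ_mem⟩
  rcases B.eq_empty_or_nonempty with rfl | hBne
  · exact ⟨univ, ∅, isClosed_univ, isClosed_empty, fun x _ hx => hx.elim, fun x _ _ => univ_mem,
      fun x hx => hx.elim⟩
  have cA := continuous_infDist_pt A
  have cB := continuous_infDist_pt B
  refine ⟨{x | 2 * infDist x A ≤ infDist x B}, {x | 2 * infDist x B ≤ infDist x A},
    isClosed_le (by fun_prop) cB, isClosed_le (by fun_prop) cA, fun x h1 h2 => ?_,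
    fun x h1 h2 => ?_, fun x h1 h2 => ?_⟩
  · simp only [mem_ofPred_eq] at h1 h2
    have a0 : 0 ≤ infDist x A := infDist_nonneg
    have b0 : 0 ≤ infDist x B := infDist_nonneg
    exact ⟨(hA.mem_iff_infDist_zero hAne).2 (by linarith),
      (hB.mem_iff_infDist_zero hBne).2 (by linarith)⟩
  · have h3 : 2 * infDist x A < infDist x B := by
      rw [infDist_zero_of_mem h1, mul_zero]
      exact (hB.notMem_iff_infDist_pos hBne).1 h2
    exact mem_of_superset ((isOpen_lt (f := fun x => 2 * infDist x A) (by fun_prop) cB).mem_nhds h3)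
      fun y (hy : 2 * infDist y A < infDist y B) => hy.le
  · have h3 : 2 * infDist x B < infDist x A := by
      rw [infDist_zero_of_mem h1, mul_zero]
      exact (hA.notMem_iff_infDist_pos hAne).1 h2
    exact mem_of_superset ((isOpen_lt (f := fun x => 2 * infDist x B) (by fun_prop) cA).mem_nhds h3)
      fun y (hy : 2 * infDist y B < infDist y A) => hy.le

/-- The countable sum theorem. -/
theorem ZD.sum {Y : Set X} (F : ℕ → Set X) (hF : ∀ n, IsClosed (F n))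
    (hc : ∀ y ∈ Y, ∃ n, y ∈ F n) (h : ∀ n, ZD (Y ∩ F n)) : ZD Y := by
  intro A B hA hB hAB
  let P : Set X × Set X → Prop := fun p =>
    IsClosed p.1 ∧ IsClosed p.2 ∧ ∀ y ∈ Y, y ∈ p.1 → y ∉ p.2
  have step : ∀ (n : ℕ) (p : {p // P p}), ∃ q : {p // P p},
      (∀ y ∈ Y, y ∈ p.1.1 → q.1.1 ∈ 𝓝 y) ∧ (∀ y ∈ Y, y ∈ p.1.2 → q.1.2 ∈ 𝓝 y) ∧
      ∀ y ∈ Y, y ∈ F n → y ∈ q.1.1 ∨ y ∈ q.1.2 := by
    rintro n ⟨⟨A₁, B₁⟩, h1, h2, h3⟩
    obtain ⟨S, hS, s1, s2, s3, s4⟩ := h n A₁ B₁ h1 h2 fun y hy => h3 y hy.1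
    have hSF : closure S ⊆ F n := closure_minimal (fun y hy => (hS hy).2) (hF n)
    have hTF : closure ((Y ∩ F n) \ S) ⊆ F n := closure_minimal (fun y hy => hy.1.2) (hF n)
    have hd : ∀ y ∈ Y, y ∈ A₁ ∪ closure S → y ∉ B₁ ∪ closure ((Y ∩ F n) \ S) := by
      rintro y hy (ha | ha) (hb | hb)
      · exact h3 y hy ha hb
      · exact s4 y (s2 y ⟨hy, hTF hb⟩ ha) hb
      · exact s1 y (s3 y ⟨hy, hSF ha⟩ ha) hb
      · exact s4 y (s3 y ⟨hy, hSF ha⟩ ha) hb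
    obtain ⟨A', B', c1, c2, c3, c4, c5⟩ := exists_enlarge (h1.union (isClosed_closure (s := S)))
      (h2.union (isClosed_closure (s := (Y ∩ F n) \ S)))
    refine ⟨⟨(A', B'), c1, c2, fun y hy ha hb => hd y hy (c3 y ha hb).1 (c3 y ha hb).2⟩,
      fun y hy ha => c4 y (Or.inl ha) (hd y hy (Or.inl ha)),
      fun y hy hb => c5 y (Or.inl hb) fun ha => hd y hy ha (Or.inl hb), fun y hy hyF => ?_⟩
    by_cases hyS : y ∈ S
    · have : y ∈ A₁ ∪ closure S := Or.inr (subset_closure hyS)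
      exact Or.inl (mem_of_mem_nhds (c4 y this (hd y hy this)))
    · have : y ∈ B₁ ∪ closure ((Y ∩ F n) \ S) := Or.inr (subset_closure ⟨⟨hy, hyF⟩, hyS⟩)
      exact Or.inr (mem_of_mem_nhds (c5 y this fun ha => hd y hy ha this))
  choose f f1 f2 f3 using step
  let q : ℕ → {p // P p} := fun n => Nat.rec ⟨(A, B), hA, hB, hAB⟩ (fun n p => f n p) n
  have m1 : ∀ y ∈ Y, ∀ n m, n ≤ m → y ∈ (q n).1.1 → y ∈ (q m).1.1 := by
    intro y hy n m hnm h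
    induction m, hnm using Nat.le_induction with
    | base => exact h
    | succ m _ ih => exact mem_of_mem_nhds (f1 m (q m) y hy ih)
  have m2 : ∀ y ∈ Y, ∀ n m, n ≤ m → y ∈ (q n).1.2 → y ∈ (q m).1.2 := by
    intro y hy n m hnm h
    induction m, hnm using Nat.le_induction with
    | base => exact h
    | succ m _ ih => exact mem_of_mem_nhds (f2 m (q m) y hy ih)
  have hdis : ∀ y ∈ Y, ∀ n m, y ∈ (q n).1.1 → y ∉ (q m).1.2 := fun y hy n m h1 h2 =>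
    (q (max n m)).2.2.2 y hy (m1 y hy _ _ (le_max_left _ _) h1) (m2 y hy _ _ (le_max_right _ _) h2)
  have hcov : ∀ y ∈ Y, (∃ n, y ∈ (q n).1.1) ∨ ∃ n, y ∈ (q n).1.2 := fun y hy => by
    obtain ⟨n, hn⟩ := hc y hy
    exact (f3 n (q n) y hy hn).imp (fun h => ⟨n + 1, h⟩) fun h => ⟨n + 1, h⟩
  refine ⟨{y | y ∈ Y ∧ ∃ n, y ∈ (q n).1.1}, fun y hy => hy.1, ?_, fun y hy ha => ⟨hy, 0, ha⟩,
    fun y hy hcl => ?_, ?_⟩
  · rintro y ⟨hy, n, hn⟩ hb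
    exact hdis y hy n 0 hn hb
  · rcases hcov y hy with h1 | ⟨n, hn⟩
    · exact ⟨hy, h1⟩
    · obtain ⟨z, hz1, hz, m, hm⟩ := mem_closure_iff_nhds.1 hcl _ (f2 n (q n) y hy hn)
      exact (hdis z hz m (n + 1) hm hz1).elim
  · rintro y ⟨hy, n, hn⟩ hcl
    obtain ⟨z, hz1, hz, hz2⟩ := mem_closure_iff_nhds.1 hcl _ (f1 n (q n) y hy hn)
    exact hz2 ⟨hz, n + 1, hz1⟩

theorem ZD.inter {Y F : Set X} (h : ZD Y) (hF : IsClosed F) : ZD (Y ∩ F) := by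
  intro A B hA hB hAB
  obtain ⟨S, hS, s1, s2, s3, s4⟩ := h (A ∩ F) (B ∩ F) (hA.inter hF) (hB.inter hF)
    fun y hy ha hb => hAB y ⟨hy, ha.2⟩ ha.1 hb.1
  refine ⟨S ∩ F, fun y hy => ⟨hS hy.1, hy.2⟩, fun y hy hb => s1 y hy.1 ⟨hb, hy.2⟩,
    fun y hy ha => ⟨s2 y hy.1 ⟨ha, hy.2⟩, hy.2⟩,
    fun y hy hc => ⟨s3 y hy.1 (closure_mono inter_subset_left hc), hy.2⟩,
    fun y hy hc => s4 y hy.1 (closure_mono ?_ hc)⟩
  exact fun z hz => ⟨hz.1.1, fun h => hz.2 ⟨h, hz.1.2⟩⟩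

theorem ZD.diff {Y F : Set X} (h : ZD Y) (hF : IsClosed F) : ZD (Y \ F) := by
  obtain ⟨G, hG, hGF, hU, -⟩ := hF.isOpen_compl.exists_iUnion_isClosed
  refine ZD.sum G hG (fun y hy => mem_iUnion.1 (by rw [hU]; exact hy.2)) fun n => ?_
  have : (Y \ F) ∩ G n = Y ∩ G n :=
    Subset.antisymm (fun y hy => ⟨hy.1.1, hy.2⟩) fun y hy => ⟨⟨hy.1, hGF n hy.2⟩, hy.2⟩
  rw [this]
  exact h.inter (hG n)

theorem ZD.mono {Y Y' : Set X} (h : ZD Y) (hY : Y' ⊆ Y) : ZD Y' := by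
  intro A B hA hB hAB
  obtain ⟨S, hS, s1, s2, s3, s4⟩ := (h.diff (hA.inter hB)) A B hA hB
    fun y hy ha hb => hy.2 ⟨ha, hb⟩
  have hm : ∀ y ∈ Y', y ∈ Y \ (A ∩ B) := fun y hy => ⟨hY hy, fun h => hAB y hy h.1 h.2⟩
  refine ⟨S ∩ Y', inter_subset_right, fun y hy => s1 y hy.1,
    fun y hy ha => ⟨s2 y (hm y hy) ha, hy⟩,
    fun y hy hc => ⟨s3 y (hm y hy) (closure_mono inter_subset_left hc), hy⟩,
    fun y hy hc => s4 y hy.1 (closure_mono ?_ hc)⟩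
  exact fun z hz => ⟨hm z hz.1, fun h => hz.2 ⟨h, hz.1⟩⟩

theorem ZD.split {Y F : Set X} (hF : IsClosed F) (h1 : ZD (Y ∩ F)) (h2 : ZD (Y \ F)) : ZD Y := by
  obtain ⟨G, hG, hGF, hU, -⟩ := hF.isOpen_compl.exists_iUnion_isClosed
  refine ZD.sum (fun n => Nat.casesOn n F G) (fun n => ?_) (fun y hy => ?_) fun n => ?_
  · cases n
    exacts [hF, hG _]
  · by_cases hyF : y ∈ F
    · exact ⟨0, hyF⟩
    · obtain ⟨n, hn⟩ := mem_iUnion.1 (show y ∈ ⋃ n, G n by rw [hU]; exact hyF)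
      exact ⟨n + 1, hn⟩
  · cases n with
    | zero => exact h1
    | succ n => exact h2.mono fun y hy => ⟨hy.1, hGF n hy.2⟩

theorem ZD.union_sep {P Q : Set X} (hP : ZD P) (hQ : ZD Q) (h : ∀ x ∈ P, x ∉ closure Q) :
    ZD (P ∪ Q) :=
  ZD.split (F := closure Q) isClosed_closure
    (hQ.mono fun x hx => hx.1.elim (fun h' => (h x h' hx.2).elim) id)
    (hP.mono fun _ hx => hx.1.elim id fun h' => (hx.2 (subset_closure h')).elim)

/-- A partition that misses a given set of dimension at most `0`. -/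
theorem ZD.exists_part {Y A B : Set X} (h : ZD Y) (hA : IsClosed A) (hB : IsClosed B) :
    ∃ U V : Set X, IsOpen U ∧ IsOpen V ∧ Disjoint U V ∧ (∀ x ∈ A, x ∉ B → x ∈ U) ∧
      (∀ x ∈ B, x ∉ A → x ∈ V) ∧ ∀ y ∈ Y, ¬ (y ∈ A ∧ y ∈ B) → y ∈ U ∨ y ∈ V := by
  obtain ⟨A', B', c1, c2, c3, c4, c5⟩ := exists_enlarge hA hB
  obtain ⟨S, hS, s1, s2, s3, s4⟩ := (h.diff (hA.inter hB)) A' B' c1 c2
    fun y hy ha hb => hy.2 (c3 y ha hb)
  have d1 : Disjoint (closure ((A \ B) ∪ S)) ((B \ A) ∪ ((Y \ (A ∩ B)) \ S)) := by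
    rw [closure_union, disjoint_left]
    rintro x (hx | hx) (hy | hy)
    · exact hy.2 (closure_minimal sdiff_subset hA hx)
    · have hxA : x ∈ A := closure_minimal sdiff_subset hA hx
      exact hy.2 (s2 x hy.1 (mem_of_mem_nhds (c4 x hxA fun hb => hy.1.2 ⟨hxA, hb⟩)))
    · obtain ⟨z, hz1, hz2⟩ := mem_closure_iff_nhds.1 hx _ (c5 x hy.1 hy.2)
      exact s1 z hz2 hz1
    · exact hy.2 (s3 x hy.1 hx)
  have d2 : Disjoint ((A \ B) ∪ S) (closure ((B \ A) ∪ ((Y \ (A ∩ B)) \ S))) := by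
    rw [closure_union, disjoint_left]
    rintro x (hx | hx) (hy | hy)
    · exact hx.2 (closure_minimal sdiff_subset hB hy)
    · obtain ⟨z, hz1, hz2⟩ := mem_closure_iff_nhds.1 hy _ (c4 x hx.1 hx.2)
      exact hz2.2 (s2 z hz2.1 hz1)
    · have hxB : x ∈ B := closure_minimal sdiff_subset hB hy
      exact s1 x hx (mem_of_mem_nhds (c5 x hxB fun ha => (hS hx).2 ⟨ha, hxB⟩))
    · exact s4 x hx hy
  obtain ⟨U, V, hU, hV, hAU, hBV, hUV⟩ :=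
    separatedNhds_iff_disjoint.2 (completely_normal d1 d2)
  refine ⟨U, V, hU, hV, hUV, fun x h1 h2 => hAU (Or.inl ⟨h1, h2⟩),
    fun x h1 h2 => hBV (Or.inl ⟨h1, h2⟩), fun y hy hn => ?_⟩
  by_cases hyS : y ∈ S
  · exact Or.inl (hAU (Or.inr hyS))
  · exact Or.inr (hBV (Or.inr ⟨⟨hy, hn⟩, hyS⟩))

theorem exists_open_sep {M : Type u} [TopologicalSpace M] (h0 : CovDimLE M 0) {A B : Set M}
    (hA : IsClosed A) (hB : IsClosed B) (G : ℕ → Set M) (hG : ∀ n, IsClosed (G n))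
    (hGF : ∀ n, G n ⊆ (A ∩ B)ᶜ) (hU : ⋃ n, G n = (A ∩ B)ᶜ) :
    ∃ E E' : Set M, IsOpen E ∧ IsOpen E' ∧ (∀ x ∈ E, x ∉ E') ∧
      (∀ x ∈ A, x ∉ E') ∧ (∀ x ∈ B, x ∉ E) ∧ ∀ x, ¬ (x ∈ A ∧ x ∈ B) → x ∈ E ∨ x ∈ E' := by
  classical
  choose K hK hGK hKO using fun n => exists_clopen_between h0 (hG n)
    (hA.inter hB).isOpen_compl (hGF n)
  choose E hE hAE hEB using fun n => exists_clopen_between h0 (w := A ∩ K n) (v := (B ∩ K n)ᶜ)
    (hA.inter (hK n).1) (hB.inter (hK n).1).isOpen_compl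
    (fun x hx hb => hKO n hx.2 ⟨hx.1, hb.1⟩)
  let D : ℕ → Set M := fun n => K n ∩ ⋂ m ∈ Finset.range n, (K m)ᶜ
  have hD : ∀ n, IsOpen (D n) := fun n =>
    (hK n).2.inter (isOpen_biInter_finset fun m _ => (hK m).1.isOpen_compl)
  have hDm : ∀ n x, x ∈ D n ↔ x ∈ K n ∧ ∀ m < n, x ∉ K m := fun n x => by simp [D]
  have huniq : ∀ n m x, x ∈ D n → x ∈ D m → n = m := fun n m x h1 h2 => by
    rw [hDm] at h1 h2
    rcases lt_trichotomy n m with h | h | h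
    · exact (h2.2 n h h1.1).elim
    · exact h
    · exact (h1.2 m h h2.1).elim
  refine ⟨⋃ n, D n ∩ E n, ⋃ n, D n ∩ (E n)ᶜ, isOpen_iUnion fun n => (hD n).inter (hE n).2,
    isOpen_iUnion fun n => (hD n).inter (hE n).1.isOpen_compl, fun x h1 h2 => ?_,
    fun x h1 h2 => ?_, fun x h1 h2 => ?_, fun x hx => ?_⟩
  · obtain ⟨n, hn⟩ := mem_iUnion.1 h1
    obtain ⟨m, hm⟩ := mem_iUnion.1 h2
    obtain rfl := huniq n m x hn.1 hm.1
    exact hm.2 hn.2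
  · obtain ⟨m, hm⟩ := mem_iUnion.1 h2
    exact hm.2 (hAE m ⟨h1, hm.1.1⟩)
  · obtain ⟨m, hm⟩ := mem_iUnion.1 h2
    exact hEB m hm.2 ⟨h1, hm.1.1⟩
  · have hex : ∃ n, x ∈ K n := by
      obtain ⟨n, hn⟩ := mem_iUnion.1 (show x ∈ ⋃ n, G n by rw [hU]; exact hx)
      exact ⟨n, hGK n hn⟩
    have hxD : x ∈ D (Nat.find hex) :=
      (hDm _ _).2 ⟨Nat.find_spec hex, fun m hm => Nat.find_min hex hm⟩
    by_cases hxE : x ∈ E (Nat.find hex)
    · exact Or.inl (mem_iUnion.2 ⟨_, hxD, hxE⟩)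
    · exact Or.inr (mem_iUnion.2 ⟨_, hxD, hxE⟩)

section Colour

/-- The family `O` (the open sets of a finer topology) separates closed sets. -/
def Separates (O : Set X → Prop) : Prop :=
  ∀ A B : Set X, IsClosed A → IsClosed B → ∃ E E' : Set X, O E ∧ O E' ∧ (∀ x ∈ E, x ∉ E') ∧
    (∀ x ∈ A, x ∉ E') ∧ (∀ x ∈ B, x ∉ E) ∧ ∀ x, ¬ (x ∈ A ∧ x ∈ B) → x ∈ E ∨ x ∈ E'

/-- Points of `D` can approach `x` only in the finer topology with open sets `O`. -/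
def Via (O : Set X → Prop) (x : X) (D : Set X) : Prop :=
  ∀ P : Set X, O P → x ∈ P → ∀ᶠ y in 𝓝 x, y ∈ D → y ∈ P

variable {O : Set X → Prop} (hO : Separates O)
include hO

theorem zd_of_loc {Y : Set X} (h : ∀ E E' : Set X, O E → O E' →
    (∀ x ∈ E, x ∉ E') → ∀ x ∈ Y, x ∈ E → ∀ᶠ y in 𝓝 x, y ∈ Y → y ∉ E') : ZD Y := by
  intro A B hA hB hAB
  obtain ⟨E, E', e1, e2, e3, e4, e5, e6⟩ := hO A B hA hB
  have e7 : ∀ y ∈ Y, y ∈ E ∨ y ∈ E' := fun y hy => e6 y fun h => hAB y hy h.1 h.2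
  refine ⟨Y ∩ E, inter_subset_left, fun y hy hb => e5 y hb hy.2,
    fun y hy ha => ⟨hy, (e7 y hy).resolve_right (e4 y ha)⟩, fun y hy hc => ⟨hy, ?_⟩,
    fun y hy hc => ?_⟩
  · refine (e7 y hy).resolve_right fun hy' => ?_
    obtain ⟨z, hz1, hz2⟩ := mem_closure_iff_nhds.1 hc _
      (h E' E e2 e1 (fun x h1 h2 => e3 x h2 h1) y hy hy')
    exact hz1 hz2.1 hz2.2
  · obtain ⟨z, hz1, hz2⟩ := mem_closure_iff_nhds.1 hc _ (h E E' e1 e2 e3 y hy.1 hy.2)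
    exact hz2.2 ⟨hz2.1, (e7 z hz2.1).resolve_right (hz1 hz2.1)⟩

theorem zd_of_test {Y D : Set X} (hD : Y ⊆ closure D) (h : ∀ x ∈ Y, Via O x D) : ZD Y := by
  refine zd_of_loc hO fun E E' e1 e2 e3 x hx hxE => ?_
  filter_upwards [(h x hx E e1 hxE).eventually_nhds] with y hy hyY hyE
  obtain ⟨z, hz1, hz2⟩ := mem_closure_iff_nhds.1 (hD hyY) _ (hy.and (h y hyY E' e2 hyE))
  exact e3 z (hz1.1 hz2) (hz1.2 hz2)

theorem zd_union_of_via {P Q : Set X} (hP : ZD P) (hQ : ZD Q) (h1 : ∀ x ∈ P, Via O x Q)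
    (h2 : ∀ x ∈ Q, Via O x P) : ZD (P ∪ Q) := by
  refine ZD.split (F := closure Q) isClosed_closure (ZD.split (F := closure P) isClosed_closure ?_
    (hQ.mono fun x hx => hx.1.1.elim (fun h' => (hx.2 (subset_closure h')).elim) id))
    (hP.mono fun x hx => hx.1.elim id fun h' => (hx.2 (subset_closure h')).elim)
  refine zd_of_loc hO fun E E' e1 e2 e3 x hx hxE => ?_
  rcases hx.1.1 with hxP | hxQ
  · filter_upwards [(h1 x hxP E e1 hxE).eventually_nhds] with y hy hyY hyE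
    rcases hyY.1.1 with hyP | hyQ
    · obtain ⟨z, hz1, hz2⟩ := mem_closure_iff_nhds.1 hyY.1.2 _ (hy.and (h1 y hyP E' e2 hyE))
      exact e3 z (hz1.1 hz2) (hz1.2 hz2)
    · exact e3 y (hy.self_of_nhds hyQ) hyE
  · filter_upwards [(h2 x hxQ E e1 hxE).eventually_nhds] with y hy hyY hyE
    rcases hyY.1.1 with hyP | hyQ
    · exact e3 y (hy.self_of_nhds hyP) hyE
    · obtain ⟨z, hz1, hz2⟩ := mem_closure_iff_nhds.1 hyY.2 _ (hy.and (h2 y hyQ E' e2 hyE))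
      exact e3 z (hz1.1 hz2) (hz1.2 hz2)

end Colour

end Pool.Agent.Lib.MP_e04a0d_gt
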