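import Mathlib
import Pool.Agent.Lib.MP_e04a0d_gt.ZDim
import Pool.Agent.Lib.MP_e04a0d_gt.Sharp

/-! An intersection of three topologies of dimension at most `0` has dimension at most `2`. -/

namespace Pool.Agent.Lib.MP_e04a0d_gt

open Set Filter Topology Metric

universe u

section Types

variable {X : Type u} [MetricSpace X] (t₁ t₂ t₃ : X → Bool)

/-- Points of a given type. -/
def Ty (a b c : Bool) : Set X := {x | t₁ x = a ∧ t₂ x = b ∧ t₃ x = c}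

/-- The closure of the set of points of a given type. -/
def Fc (a b c : Bool) : Set X := closure (Ty t₁ t₂ t₃ a b c)

/-- Both types `(a, b, *)` accumulate for some `b`. -/
def Jn (a : Bool) : Set X := {x | ∃ b, ∀ c, x ∈ Fc t₁ t₂ t₃ a b c}

/-- All four types `(*, b, *)` accumulate. -/
def Rl (b : Bool) : Set X := {x | ∀ a c, x ∈ Fc t₁ t₂ t₃ a b c}

/-- Both values of the third coordinate accumulate. -/
def Wl : Set X := closure {x | t₃ x = false} ∩ closure {x | t₃ x = true}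

theorem mem_Fc_self (x : X) : x ∈ Fc t₁ t₂ t₃ (t₁ x) (t₂ x) (t₃ x) :=
  subset_closure ⟨rfl, rfl, rfl⟩

theorem isClosed_Jn (a : Bool) : IsClosed (Jn t₁ t₂ t₃ a) := by
  have : Jn t₁ t₂ t₃ a = ⋃ b, ⋂ c, Fc t₁ t₂ t₃ a b c := by ext; simp [Jn]
  rw [this]
  exact isClosed_iUnion_of_finite fun b => isClosed_iInter fun c => isClosed_closure

theorem isClosed_Rl (b : Bool) : IsClosed (Rl t₁ t₂ t₃ b) := by
  have : Rl t₁ t₂ t₃ b = ⋂ a, ⋂ c, Fc t₁ t₂ t₃ a b c := by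
    ext; simp only [Rl, mem_ofPred_eq, mem_iInter]
  rw [this]
  exact isClosed_iInter fun a => isClosed_iInter fun c => isClosed_closure

theorem exists_Fc_of_Wl {x : X} (hx : x ∈ Wl t₃) (c : Bool) : ∃ a b, x ∈ Fc t₁ t₂ t₃ a b c := by
  have h1 : x ∈ closure {x | t₃ x = c} := by
    cases c
    exacts [hx.1, hx.2]
  have h2 : IsClosed (⋃ a, ⋃ b, Fc t₁ t₂ t₃ a b c) :=
    isClosed_iUnion_of_finite fun a => isClosed_iUnion_of_finite fun b => isClosed_closure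
  have h3 : {x | t₃ x = c} ⊆ ⋃ a, ⋃ b, Fc t₁ t₂ t₃ a b c := fun y hy =>
    mem_iUnion.2 ⟨t₁ y, mem_iUnion.2 ⟨t₂ y, subset_closure ⟨rfl, rfl, hy⟩⟩⟩
  simpa using closure_minimal h3 h2 h1

variable {t₁ t₂ t₃}
  (anti : ∀ a b c, ∀ x ∈ Ty t₁ t₂ t₃ a b c, x ∉ Fc t₁ t₂ t₃ (!a) (!b) (!c))
  (z₁ : ∀ a b c, ZD (Ty t₁ t₂ t₃ a b c ∩ Fc t₁ t₂ t₃ a (!b) (!c)))
  (z₂ : ∀ a b c, ZD (Ty t₁ t₂ t₃ a b c ∩ Fc t₁ t₂ t₃ (!a) b (!c)))
  (u₃ : ∀ a b c (P Q : Set X), P ⊆ Ty t₁ t₂ t₃ a b c → Q ⊆ Ty t₁ t₂ t₃ (!a) (!b) c →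
    ZD P → ZD Q → ZD (P ∪ Q))

/-- The part of the wall without a joint label. -/
def Qs (t₁ t₂ t₃ : X → Bool) : Set X := {x | x ∈ Wl t₃ ∧ ∀ a, x ∉ Jn t₁ t₂ t₃ a}

include anti in
theorem Qs_test {a b c : Bool} {x : X} (hx : x ∈ Qs t₁ t₂ t₃) (ht : x ∈ Ty t₁ t₂ t₃ a b c) :
    x ∈ Fc t₁ t₂ t₃ a (!b) (!c) ∨ x ∈ Fc t₁ t₂ t₃ (!a) b (!c) := by
  obtain ⟨a', b', h⟩ := exists_Fc_of_Wl t₁ t₂ t₃ hx.1 (!c)
  have h1 := anti a b c x ht
  have h2 : x ∉ Fc t₁ t₂ t₃ a b (!c) := fun h' => hx.2 a ⟨b, fun c' => by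
    have h3 : x ∈ Fc t₁ t₂ t₃ a b c := subset_closure ht
    cases c <;> cases c' <;> assumption⟩
  cases a <;> cases b <;> cases a' <;> cases b' <;> simp_all

include anti z₁ z₂ in
theorem zd_Qs_Ty (a b c : Bool) : ZD (Qs t₁ t₂ t₃ ∩ Ty t₁ t₂ t₃ a b c) :=
  ZD.split (F := Fc t₁ t₂ t₃ a (!b) (!c)) isClosed_closure
    ((z₁ a b c).mono fun _ hx => ⟨hx.1.2, hx.2⟩)
    ((z₂ a b c).mono fun _ hx => ⟨hx.1.2, (Qs_test anti hx.1.1 hx.1.2).resolve_left hx.2⟩)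

include anti in
theorem Qs_sep {a b c : Bool} {x : X} (hx : x ∈ Qs t₁ t₂ t₃) (ht : x ∈ Ty t₁ t₂ t₃ a b c) :
    x ∉ closure (Qs t₁ t₂ t₃ ∩ Ty t₁ t₂ t₃ (!a) b c) ∧
      x ∉ closure (Qs t₁ t₂ t₃ ∩ Ty t₁ t₂ t₃ a (!b) c) := by
  have h1 := anti a b c x ht
  have h2 : x ∉ Fc t₁ t₂ t₃ a b (!c) := fun h' => hx.2 a ⟨b, fun c' => by
    have h3 : x ∈ Fc t₁ t₂ t₃ a b c := subset_closure ht
    cases c <;> cases c' <;> assumption⟩
  have hcl : IsClosed (Fc t₁ t₂ t₃ (!a) (!b) (!c) ∪ Fc t₁ t₂ t₃ a b (!c)) :=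
    isClosed_closure.union isClosed_closure
  constructor
  · intro h
    refine (closure_minimal (fun y hy => ?_) hcl h).elim h1 h2
    simpa using Qs_test anti hy.1 hy.2
  · intro h
    refine (closure_minimal (fun y hy => ?_) hcl h).elim h1 h2
    have := Qs_test anti hy.1 hy.2
    rw [Bool.not_not] at this
    exact this.symm

include anti z₁ z₂ u₃ in
theorem zd_Qs (c : Bool) : ZD (Qs t₁ t₂ t₃ ∩ {x | t₃ x = c}) := by
  have g : ∀ b, ZD ((Qs t₁ t₂ t₃ ∩ Ty t₁ t₂ t₃ false b c) ∪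
      (Qs t₁ t₂ t₃ ∩ Ty t₁ t₂ t₃ true (!b) c)) := fun b =>
    u₃ false b c _ _ inter_subset_right inter_subset_right (zd_Qs_Ty anti z₁ z₂ _ _ _)
      (zd_Qs_Ty anti z₁ z₂ _ _ _)
  refine ((g false).union_sep (g true) ?_).mono ?_
  · rintro x (hx | hx) <;> rw [closure_union] <;> rintro (h | h)
    · exact (Qs_sep anti hx.1 hx.2).2 h
    · exact (Qs_sep anti hx.1 hx.2).1 h
    · exact (Qs_sep anti hx.1 hx.2).1 h
    · exact (Qs_sep anti hx.1 hx.2).2 h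
  · rintro x ⟨hx, hc⟩
    cases h1 : t₁ x <;> cases h2 : t₂ x
    · exact Or.inl (Or.inl ⟨hx, h1, h2, hc⟩)
    · exact Or.inr (Or.inl ⟨hx, h1, h2, hc⟩)
    · exact Or.inr (Or.inr ⟨hx, h1, h2, hc⟩)
    · exact Or.inl (Or.inr ⟨hx, h1, h2, hc⟩)

/-- Two walls with different joint labels. -/
def Ps (t₁ t₂ t₃ : X → Bool) (b : Bool) : Set X :=
  {x | (∀ c, x ∈ Fc t₁ t₂ t₃ false b c) ∧ (∀ c, x ∈ Fc t₁ t₂ t₃ true (!b) c) ∧
    ∀ b', x ∉ Rl t₁ t₂ t₃ b'}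

include anti z₁ u₃ in
theorem zd_Ps (b : Bool) : ZD (Ps t₁ t₂ t₃ b) := by
  have g : ∀ c, ZD ((Ps t₁ t₂ t₃ b ∩ Ty t₁ t₂ t₃ false (!b) c) ∪
      (Ps t₁ t₂ t₃ b ∩ Ty t₁ t₂ t₃ true b c)) := fun c =>
    u₃ false (!b) c _ _ inter_subset_right (by rw [Bool.not_not]; exact inter_subset_right)
      ((z₁ false (!b) c).mono fun x hx => ⟨hx.2, by rw [Bool.not_not]; exact hx.1.1 _⟩)
      ((z₁ true b c).mono fun x hx => ⟨hx.2, hx.1.2.1 _⟩)
  refine ((g false).union_sep (g true) ?_).mono ?_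
  · rintro x (hx | hx) <;> rw [closure_union] <;> rintro (h | h)
    · have h1 : x ∈ Fc t₁ t₂ t₃ false (!b) true := closure_mono inter_subset_right h
      have h2 : x ∈ Fc t₁ t₂ t₃ false (!b) false := subset_closure hx.2
      refine hx.1.2.2 (!b) fun a c => ?_
      have h3 := hx.1.2.1 c
      cases a <;> cases c <;> assumption
    · have h1 : x ∈ Fc t₁ t₂ t₃ true b true := closure_mono inter_subset_right h
      have h2 := anti _ _ _ x hx.2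
      rw [Bool.not_not] at h2
      exact h2 h1
    · have h1 : x ∈ Fc t₁ t₂ t₃ false (!b) true := closure_mono inter_subset_right h
      exact anti _ _ _ x hx.2 h1
    · have h1 : x ∈ Fc t₁ t₂ t₃ true b true := closure_mono inter_subset_right h
      have h2 : x ∈ Fc t₁ t₂ t₃ true b false := subset_closure hx.2
      refine hx.1.2.2 b fun a c => ?_
      have h3 := hx.1.1 c
      cases a <;> cases c <;> assumption
  · intro x hx
    have h0 := anti (t₁ x) (t₂ x) (t₃ x) x ⟨rfl, rfl, rfl⟩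
    have h4 := hx.1 (!t₃ x)
    have h5 := hx.2.1 (!t₃ x)
    have h6 : (t₁ x = false ∧ t₂ x = !b) ∨ (t₁ x = true ∧ t₂ x = b) := by
      cases h1 : t₁ x <;> cases h2 : t₂ x <;> cases b <;> simp_all
    cases h3 : t₃ x
    · exact Or.inl (h6.imp (fun h => ⟨hx, h.1, h.2, h3⟩) fun h => ⟨hx, h.1, h.2, h3⟩)
    · exact Or.inr (h6.imp (fun h => ⟨hx, h.1, h.2, h3⟩) fun h => ⟨hx, h.1, h.2, h3⟩)

include anti z₁ u₃ in
theorem zd_Jn : ZD {x | (∀ a, x ∈ Jn t₁ t₂ t₃ a) ∧ ∀ b, x ∉ Rl t₁ t₂ t₃ b} := by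
  refine ZD.split (F := (⋂ c, Fc t₁ t₂ t₃ false false c) ∩ ⋂ c, Fc t₁ t₂ t₃ true true c)
    ((isClosed_iInter fun c => isClosed_closure).inter (isClosed_iInter fun c => isClosed_closure))
    ((zd_Ps anti z₁ u₃ false).mono fun x hx => ⟨mem_iInter.1 hx.2.1, mem_iInter.1 hx.2.2, hx.1.2⟩)
    ((zd_Ps anti z₁ u₃ true).mono fun x hx => ?_)
  obtain ⟨b₀, h0⟩ := hx.1.1 false
  obtain ⟨b₁, h1⟩ := hx.1.1 true
  have hne : b₀ ≠ b₁ := by
    rintro rfl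
    refine hx.1.2 b₀ fun a c => ?_
    cases a
    exacts [h0 c, h1 c]
  cases b₀ <;> cases b₁
  · exact (hne rfl).elim
  · exact (hx.2 ⟨mem_iInter.2 h0, mem_iInter.2 h1⟩).elim
  · exact ⟨h0, h1, hx.1.2⟩
  · exact (hne rfl).elim

include anti z₁ z₂ u₃ in
theorem three_pairs_of_types {A₁ B₁ A₂ B₂ : Set X} (a1 : IsClosed A₁) (b1 : IsClosed B₁)
    (a2 : IsClosed A₂) (b2 : IsClosed B₂)
    (hA₁ : ∀ x ∈ A₁, x ∉ closure {x | t₁ x = true}) (hB₁ : ∀ x ∈ B₁, x ∉ closure {x | t₁ x = false})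
    (hA₂ : ∀ x ∈ A₂, x ∉ closure {x | t₂ x = true})
    (hB₂ : ∀ x ∈ B₂, x ∉ closure {x | t₂ x = false}) :
    ∃ U₁ V₁ U₂ V₂ : Set X, IsOpen U₁ ∧ IsOpen V₁ ∧ IsOpen U₂ ∧ IsOpen V₂ ∧ Disjoint U₁ V₁ ∧
      Disjoint U₂ V₂ ∧ A₁ ⊆ U₁ ∧ B₁ ⊆ V₁ ∧ A₂ ⊆ U₂ ∧ B₂ ⊆ V₂ ∧
      ∀ x ∈ Wl t₃, x ∈ U₁ ∨ x ∈ V₁ ∨ x ∈ U₂ ∨ x ∈ V₂ := by
  have j1 : ∀ a x, x ∈ Jn t₁ t₂ t₃ a → x ∈ closure {x | t₁ x = a} := by
    rintro a x ⟨b, hb⟩
    exact closure_mono (fun y hy => hy.1) (hb true)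
  have r2 : ∀ b x, x ∈ Rl t₁ t₂ t₃ b → x ∈ closure {x | t₂ x = b} := fun b x hb =>
    closure_mono (fun y hy => hy.2.1) (hb true true)
  have s1 : ∀ x, x ∈ closure {y | t₁ y = t₁ x} := fun x => subset_closure rfl
  have s2 : ∀ x, x ∈ closure {y | t₂ y = t₂ x} := fun x => subset_closure rfl
  have ab1 : ∀ x ∈ A₁, x ∉ B₁ := fun x ha hb => by
    have := s1 x
    cases h : t₁ x <;> rw [h] at this
    exacts [hB₁ x hb this, hA₁ x ha this]
  have ab2 : ∀ x ∈ A₂, x ∉ B₂ := fun x ha hb => by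
    have := s2 x
    cases h : t₂ x <;> rw [h] at this
    exacts [hB₂ x hb this, hA₂ x ha this]
  obtain ⟨U₁, V₁, o1, o2, d1, e1, e2, e3⟩ := (zd_Qs anti z₁ z₂ u₃ false).exists_part
    (a1.union (isClosed_Jn t₁ t₂ t₃ false)) (b1.union (isClosed_Jn t₁ t₂ t₃ true))
  have hL : ∀ x ∈ Wl t₃, x ∉ U₁ → x ∉ V₁ →
      (∀ a, x ∈ Jn t₁ t₂ t₃ a) ∨ x ∈ Qs t₁ t₂ t₃ ∩ {x | t₃ x = true} := by
    intro x hx h1 h2
    by_cases j0 : x ∈ Jn t₁ t₂ t₃ false <;> by_cases j2 : x ∈ Jn t₁ t₂ t₃ true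
    · exact Or.inl fun a => by cases a <;> assumption
    · exact (h1 (e1 x (Or.inr j0) fun h => h.elim (fun h => hB₁ x h (j1 _ x j0)) j2)).elim
    · exact (h2 (e2 x (Or.inr j2) fun h => h.elim (fun h => hA₁ x h (j1 _ x j2)) j0)).elim
    · have hq : x ∈ Qs t₁ t₂ t₃ := ⟨hx, fun a => by cases a <;> assumption⟩
      cases h3 : t₃ x
      · refine ((e3 x ⟨hq, h3⟩ ?_).elim h1 h2).elim
        rintro ⟨ha | ha, hb | hb⟩
        exacts [ab1 x ha hb, j2 hb, j0 ha, j0 ha]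
      · exact Or.inr ⟨hq, h3⟩
  have hY : ZD {x | (x ∈ Wl t₃ ∧ x ∉ U₁ ∧ x ∉ V₁) ∧ ∀ b, x ∉ Rl t₁ t₂ t₃ b} := by
    refine ZD.split (F := ⋂ a, Jn t₁ t₂ t₃ a) (isClosed_iInter fun a => isClosed_Jn _ _ _ a)
      ((zd_Jn anti z₁ u₃).mono fun x hx => ⟨mem_iInter.1 hx.2, hx.1.2⟩)
      ((zd_Qs anti z₁ z₂ u₃ true).mono fun x hx => ?_)
    exact (hL x hx.1.1.1 hx.1.1.2.1 hx.1.1.2.2).resolve_left fun h => hx.2 (mem_iInter.2 h)
  obtain ⟨U₂, V₂, o3, o4, d2, f1, f2, f3⟩ := hY.exists_part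
    (a2.union (isClosed_Rl t₁ t₂ t₃ false)) (b2.union (isClosed_Rl t₁ t₂ t₃ true))
  have hd : ∀ x, x ∈ A₂ ∪ Rl t₁ t₂ t₃ false → x ∉ B₂ ∪ Rl t₁ t₂ t₃ true := by
    rintro x (ha | ha) (hb | hb)
    · exact ab2 x ha hb
    · exact hA₂ x ha (r2 _ x hb)
    · exact hB₂ x hb (r2 _ x ha)
    · refine anti (t₁ x) (t₂ x) (t₃ x) x ⟨rfl, rfl, rfl⟩ ?_
      cases t₂ x
      exacts [hb _ _, ha _ _]
  refine ⟨U₁, V₁, U₂, V₂, o1, o2, o3, o4, d1, d2,
    fun x hx => e1 x (Or.inl hx) fun h => h.elim (ab1 x hx) fun h => hA₁ x hx (j1 _ x h),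
    fun x hx => e2 x (Or.inl hx) fun h => h.elim (fun h => ab1 x h hx) fun h => hB₁ x hx (j1 _ x h),
    fun x hx => f1 x (Or.inl hx) (hd x (Or.inl hx)),
    fun x hx => f2 x (Or.inl hx) fun h => hd x h (Or.inl hx), fun x hx => ?_⟩
  by_cases h1 : x ∈ U₁
  · exact Or.inl h1
  by_cases h2 : x ∈ V₁
  · exact Or.inr (Or.inl h2)
  refine Or.inr (Or.inr ?_)
  by_cases r0 : x ∈ Rl t₁ t₂ t₃ false
  · exact Or.inl (f1 x (Or.inr r0) (hd x (Or.inr r0)))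
  by_cases r1 : x ∈ Rl t₁ t₂ t₃ true
  · exact Or.inr (f2 x (Or.inr r1) fun h => hd x h (Or.inr r1))
  exact f3 x ⟨⟨hx, h1, h2⟩, fun b => by cases b <;> assumption⟩ fun h => hd x h.1 h.2

end Types

theorem three_pairs {X : Type u} [MetricSpace X] (T : Fin 3 → TopologicalSpace X)
    (h0 : ∀ i, @CovDimLE X (T i) 0) (hT : ∀ U : Set X, IsOpen U ↔ ∀ i, @IsOpen X (T i) U)
    (A B : Fin 3 → Set X) (hA : ∀ i, IsClosed (A i)) (hB : ∀ i, IsClosed (B i))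
    (hAB : ∀ i, ∀ x ∈ A i, x ∉ B i) :
    ∃ U V : Fin 3 → Set X, (∀ i, IsOpen (U i)) ∧ (∀ i, IsOpen (V i)) ∧
      (∀ i, Disjoint (U i) (V i)) ∧ (∀ i, A i ⊆ U i) ∧ (∀ i, B i ⊆ V i) ∧
      ∀ x, ∃ i, x ∈ U i ∨ x ∈ V i := by
  classical
  have hcl : ∀ i (F : Set X), IsClosed F → @IsClosed X (T i) F := fun i F hF =>
    (@isOpen_compl_iff X F (T i)).1 ((hT _).1 hF.isOpen_compl i)
  have hsep : ∀ i, Separates fun U : Set X => @IsOpen X (T i) U := by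
    intro i F G hF hG
    obtain ⟨K, hK, hKF, hU, -⟩ := (hF.inter hG).isOpen_compl.exists_iUnion_isClosed
    exact @exists_open_sep X (T i) (h0 i) F G (hcl i F hF) (hcl i G hG) K
      (fun n => hcl i _ (hK n)) hKF hU
  choose A' B' c1 c2 c3 c4 c5 using fun i => exists_enlarge (hA i) (hB i)
  choose C hC hBC hCA using fun i => @exists_clopen_between X (T i) (h0 i) (B' i) (A' i)ᶜ
    (hcl i _ (c2 i)) ((hT _).1 (c1 i).isOpen_compl i)
    fun x hb ha => hAB i x (c3 i x ha hb).1 (c3 i x ha hb).2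
  let t : Fin 3 → X → Bool := fun i x => decide (x ∈ C i)
  have ho : ∀ i a, @IsOpen X (T i) {y | t i y = a} := by
    intro i a
    cases a
    · have : {y | t i y = false} = (C i)ᶜ := by ext; simp [t]
      rw [this]
      exact (@isOpen_compl_iff X _ (T i)).2 (hC i).1
    · have : {y | t i y = true} = C i := by ext; simp [t]
      rw [this]
      exact (hC i).2
  have hAt : ∀ i, ∀ x ∈ A i, x ∉ closure {y | t i y = true} := fun i x hx hc => by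
    obtain ⟨z, hz1, hz2⟩ := mem_closure_iff_nhds.1 hc _ (c4 i x hx (hAB i x hx))
    exact hCA i (by simpa [t] using hz2) hz1
  have hBt : ∀ i, ∀ x ∈ B i, x ∉ closure {y | t i y = false} := fun i x hx hc => by
    obtain ⟨z, hz1, hz2⟩ := mem_closure_iff_nhds.1 hc _ (c5 i x hx fun h => hAB i x h hx)
    have : z ∉ C i := by simpa [t] using hz2
    exact this (hBC i hz1)
  have nb : ∀ (x : X) (V₀ V₁ V₂ : Set X), @IsOpen X (T 0) V₀ → @IsOpen X (T 1) V₁ →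
      @IsOpen X (T 2) V₂ → x ∈ V₀ → x ∈ V₁ → x ∈ V₂ →
      ∀ᶠ y in 𝓝 x, y ∈ V₀ ∨ y ∈ V₁ ∨ y ∈ V₂ := by
    intro x V₀ V₁ V₂ o0 o1 o2 m0 m1 m2
    filter_upwards [union_mem_nhds T hT x ![V₀, V₁, V₂]
      (fun i => by fin_cases i <;> assumption) (fun i => by fin_cases i <;> assumption)] with y hy
    rcases hy with rfl | hy
    · exact Or.inl m0
    · obtain ⟨i, hi⟩ := mem_iUnion.1 hy
      fin_cases i
      exacts [Or.inl hi, Or.inr (Or.inl hi), Or.inr (Or.inr hi)]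
  have nn : ∀ a : Bool, ∀ u : Bool, u = !a → u = a → False := by decide
  have anti : ∀ a b c, ∀ x ∈ Ty (t 0) (t 1) (t 2) a b c,
      x ∉ Fc (t 0) (t 1) (t 2) (!a) (!b) (!c) := by
    intro a b c x hx hc
    obtain ⟨z, hz1, hz2⟩ := mem_closure_iff_nhds.1 hc _
      (nb x _ _ _ (ho 0 a) (ho 1 b) (ho 2 c) hx.1 hx.2.1 hx.2.2)
    rcases hz1 with h | h | h
    exacts [nn _ _ hz2.1 h, nn _ _ hz2.2.1 h, nn _ _ hz2.2.2 h]
  have z₁ : ∀ a b c, ZD (Ty (t 0) (t 1) (t 2) a b c ∩ Fc (t 0) (t 1) (t 2) a (!b) (!c)) := by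
    intro a b c
    refine zd_of_test (hsep 0) inter_subset_right fun x hx P hP hxP => ?_
    filter_upwards [nb x _ _ _ hP (ho 1 b) (ho 2 c) hxP hx.1.2.1 hx.1.2.2] with y hy hD
    rcases hy with h | h | h
    exacts [h, (nn _ _ hD.2.1 h).elim, (nn _ _ hD.2.2 h).elim]
  have z₂ : ∀ a b c, ZD (Ty (t 0) (t 1) (t 2) a b c ∩ Fc (t 0) (t 1) (t 2) (!a) b (!c)) := by
    intro a b c
    refine zd_of_test (hsep 1) inter_subset_right fun x hx P hP hxP => ?_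
    filter_upwards [nb x _ _ _ (ho 0 a) hP (ho 2 c) hx.1.1 hxP hx.1.2.2] with y hy hD
    rcases hy with h | h | h
    exacts [(nn _ _ hD.1 h).elim, h, (nn _ _ hD.2.2 h).elim]
  have v₃ : ∀ a b c a' b', (∀ u, u = a' → u = a → False) → (∀ u, u = b' → u = b → False) →
      ∀ Q : Set X, Q ⊆ Ty (t 0) (t 1) (t 2) a' b' c → ∀ x ∈ Ty (t 0) (t 1) (t 2) a b c,
      Via (fun U : Set X => @IsOpen X (T 2) U) x Q := by
    intro a b c a' b' ha hb Q hQ x hx P hP hxP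
    filter_upwards [nb x _ _ _ (ho 0 a) (ho 1 b) hP hx.1 hx.2.1 hxP] with y hy hD
    rcases hy with h | h | h
    exacts [(ha _ (hQ hD).1 h).elim, (hb _ (hQ hD).2.1 h).elim, h]
  have u₃ : ∀ a b c (P Q : Set X), P ⊆ Ty (t 0) (t 1) (t 2) a b c →
      Q ⊆ Ty (t 0) (t 1) (t 2) (!a) (!b) c → ZD P → ZD Q → ZD (P ∪ Q) :=
    fun a b c P Q hP hQ zP zQ => zd_union_of_via (hsep 2) zP zQ
      (fun x hx => v₃ a b c _ _ (nn a) (nn b) Q hQ x (hP hx))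
      (fun x hx => v₃ (!a) (!b) c a b (fun u h1 h2 => nn a u h2 h1) (fun u h1 h2 => nn b u h2 h1)
        P hP x (hQ hx))
  obtain ⟨U₁, V₁, U₂, V₂, o1, o2, o3, o4, d1, d2, s1, s2, s3, s4, hc⟩ :=
    three_pairs_of_types anti z₁ z₂ u₃ (hA 0) (hB 0) (hA 1) (hB 1) (hAt 0) (hBt 0) (hAt 1) (hBt 1)
  refine ⟨![U₁, U₂, (closure {y | t 2 y = true})ᶜ], ![V₁, V₂, (closure {y | t 2 y = false})ᶜ],
    fun i => ?_, fun i => ?_, fun i => ?_, fun i => ?_, fun i => ?_, fun x => ?_⟩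
  · fin_cases i
    exacts [o1, o3, isClosed_closure.isOpen_compl]
  · fin_cases i
    exacts [o2, o4, isClosed_closure.isOpen_compl]
  · fin_cases i
    · exact d1
    · exact d2
    · refine disjoint_left.2 fun x h1 h2 => ?_
      cases h : t 2 x
      exacts [h2 (subset_closure h), h1 (subset_closure h)]
  · fin_cases i
    exacts [s1, s3, hAt 2]
  · fin_cases i
    exacts [s2, s4, hBt 2]
  · by_cases hx : x ∈ Wl (t 2)
    · rcases hc x hx with h | h | h | h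
      exacts [⟨0, Or.inl h⟩, ⟨0, Or.inr h⟩, ⟨1, Or.inl h⟩, ⟨1, Or.inr h⟩]
    · exact ⟨2, (not_and_or.1 hx).symm⟩

/-- If every family of `n + 1` pairs of disjoint closed sets is inessential, then `dim ≤ n`. -/
theorem covDimLE_of_pairs {X : Type u} [MetricSpace X] {n : ℕ}
    (h : ∀ A B : Fin (n + 1) → Set X, (∀ i, IsClosed (A i)) → (∀ i, IsClosed (B i)) →
      (∀ i, ∀ x ∈ A i, x ∉ B i) → ∃ U V : Fin (n + 1) → Set X, (∀ i, IsOpen (U i)) ∧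
        (∀ i, IsOpen (V i)) ∧ (∀ i, Disjoint (U i) (V i)) ∧ (∀ i, A i ⊆ U i) ∧
        (∀ i, B i ⊆ V i) ∧ ∀ x, ∃ i, x ∈ U i ∨ x ∈ V i) : CovDimLE X n := by
  classical
  intro 𝒰 h𝒰 ho hc
  have := h𝒰.fintype
  have step : ∀ (u : 𝒰 → Set X), (∀ i, IsOpen (u i)) → ⋃ i, u i = univ →
      ∀ j : Fin (n + 1) ↪ 𝒰, ∃ v : 𝒰 → Set X, (∀ i, IsOpen (v i)) ∧ ⋃ i, v i = univ ∧
        (∀ i, v i ⊆ u i) ∧ ∀ x, (∀ l, x ∈ v (j l)) → ∀ i, x ∈ v i → i ∈ range j := by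
    intro u hu huc j
    obtain ⟨F, hFc, hF, hFu⟩ := exists_iUnion_eq_closed_subset hu (fun x => toFinite _) huc
    obtain ⟨G, H, hG, hH, hd, hFG, hUH, hcov⟩ := h (fun l => F (j l)) (fun l => (u (j l))ᶜ)
      (fun l => hF _) (fun l => (hu _).isClosed_compl) fun l x hx hx' => hx' (hFu _ hx)
    let v : 𝒰 → Set X := fun i =>
      if hi : i ∈ range j then G hi.choose else u i ∩ ⋃ l, H l
    have hv1 : ∀ l, v (j l) = G l := fun l => by
      have hi : j l ∈ range j := ⟨l, rfl⟩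
      simp only [v, dif_pos hi]
      rw [j.injective hi.choose_spec]
    have hv2 : ∀ i, i ∉ range j → v i = u i ∩ ⋃ l, H l := fun i hi => by
      simp only [v, dif_neg hi]
    refine ⟨v, fun i => ?_, eq_univ_of_forall fun x => ?_, fun i => ?_, fun x hx i hi => ?_⟩
    · by_cases hi : i ∈ range j
      · obtain ⟨l, rfl⟩ := hi
        rw [hv1]
        exact hG l
      · rw [hv2 i hi]
        exact (hu i).inter (isOpen_iUnion hH)
    · obtain ⟨l, hl | hl⟩ := hcov x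
      · exact mem_iUnion.2 ⟨j l, by rw [hv1]; exact hl⟩
      · obtain ⟨i, hi⟩ := mem_iUnion.1 (show x ∈ ⋃ i, F i by rw [hFc]; trivial)
        by_cases hi' : i ∈ range j
        · obtain ⟨m, rfl⟩ := hi'
          exact mem_iUnion.2 ⟨j m, by rw [hv1]; exact hFG m hi⟩
        · exact mem_iUnion.2 ⟨i, by rw [hv2 i hi']; exact ⟨hFu i hi, mem_iUnion.2 ⟨l, hl⟩⟩⟩
    · by_cases hi : i ∈ range j
      · obtain ⟨l, rfl⟩ := hi
        rw [hv1]
        intro x hx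
        by_contra hx'
        exact disjoint_left.1 (hd l) hx (hUH l hx')
      · rw [hv2 i hi]
        exact inter_subset_left
    · by_contra hi'
      rw [hv2 i hi'] at hi
      obtain ⟨l, hl⟩ := mem_iUnion.1 hi.2
      exact disjoint_left.1 (hd l) (hv1 l ▸ hx l) hl
  have all : ∀ s : Finset (Fin (n + 1) ↪ 𝒰), ∃ v : 𝒰 → Set X, (∀ i, IsOpen (v i)) ∧
      ⋃ i, v i = univ ∧ (∀ i, v i ⊆ i) ∧
      ∀ j ∈ s, ∀ x, (∀ l, x ∈ v (j l)) → ∀ i, x ∈ v i → i ∈ range j := by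
    intro s
    induction s using Finset.induction_on with
    | empty =>
      exact ⟨fun i => i, fun i => ho i i.2, by rw [← sUnion_eq_iUnion, hc], fun i => subset_rfl,
        fun j hj => by simp at hj⟩
    | insert j s _ ih =>
      obtain ⟨u, h1, h2, h3, h4⟩ := ih
      obtain ⟨v, g1, g2, g3, g4⟩ := step u h1 h2 j
      refine ⟨v, g1, g2, fun i => (g3 i).trans (h3 i), fun j' hj' x hx i hi => ?_⟩
      rcases Finset.mem_insert.1 hj' with rfl | hj'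
      · exact g4 x hx i hi
      · exact h4 j' hj' x (fun l => g3 _ (hx l)) i (g3 i hi)
  obtain ⟨v, h1, h2, h3, h4⟩ := all Finset.univ
  refine ⟨range v, finite_range v, by rintro _ ⟨i, rfl⟩; exact h1 i, by rw [sUnion_range, h2],
    by rintro _ ⟨i, rfl⟩; exact ⟨i, i.2, h3 i⟩, fun x => ?_⟩
  have hsub : {V | V ∈ range v ∧ x ∈ V} ⊆ v '' {i | x ∈ v i} := by
    rintro _ ⟨⟨i, rfl⟩, hi⟩
    exact ⟨i, hi, rfl⟩
  refine (encard_le_encard hsub).trans ((encard_image_le _ _).trans ?_)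
  let S : Finset 𝒰 := Finset.univ.filter fun i => x ∈ v i
  have hS : {i | x ∈ v i} = (S : Set 𝒰) := by ext; simp [S]
  rw [hS, encard_coe_eq_coe_finsetCard]
  have hcard : S.card ≤ n + 1 := by
    by_contra hlt
    obtain ⟨S', hS', hc'⟩ := Finset.exists_subset_card_eq (show n + 1 ≤ S.card by omega)
    let e : Fin (n + 1) ≃ S' := (Finset.equivFinOfCardEq hc').symm
    let j : Fin (n + 1) ↪ 𝒰 := e.toEmbedding.trans (Function.Embedding.subtype _)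
    have : S ⊆ S' := fun i hi => by
      obtain ⟨l, rfl⟩ := h4 j (Finset.mem_univ j) x
        (fun l => (Finset.mem_filter.1 (hS' (e l).2)).2) i (Finset.mem_filter.1 hi).2
      exact (e l).2
    have := Finset.card_le_card this
    omega
  exact_mod_cast hcard

theorem CovDimLE.mono {X : Type u} [TopologicalSpace X] {m n : ℕ} (h : CovDimLE X m)
    (hmn : m ≤ n) : CovDimLE X n := by
  intro 𝒰 h1 h2 h3
  obtain ⟨𝒱, g1, g2, g3, g4, g5⟩ := h 𝒰 h1 h2 h3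
  refine ⟨𝒱, g1, g2, g3, g4, fun x => (g5 x).trans ?_⟩
  gcongr

/-- At most three topologies of dimension at most `0` intersect in dimension at most `2`. -/
theorem covDimLE_two {X : Type u} [τ : TopologicalSpace X]
    [TopologicalSpace.MetrizableSpace X] {I : Type*} [Fintype I] (T : I → TopologicalSpace X)
    (h0 : ∀ i, @CovDimLE X (T i) 0)
    (hT : ∀ U : Set X, IsOpen U ↔ ∀ i, @IsOpen X (T i) U) (hk : Fintype.card I ≤ 3) :
    CovDimLE X 2 := by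
  by_cases h2 : Fintype.card I ≤ 2
  · exact (covDimLE_two_pow T h0 hT (k := 1) h2).mono (by norm_num)
  let : MetricSpace X := TopologicalSpace.metrizableSpaceMetric X
  let e : Fin 3 ≃ I := (Fintype.equivFinOfCardEq (by omega)).symm
  refine covDimLE_of_pairs (n := 2) (three_pairs (fun i => T (e i)) (fun i => h0 _) fun U => ?_)
  exact (hT U).trans ⟨fun h i => h _, fun h i => by
    have := h (e.symm i)
    rwa [e.apply_symm_apply] at this⟩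

end Pool.Agent.Lib.MP_e04a0d_gt
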